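import Pool.Agent.H26.FC.Frm
import Pool.Agent.H26.FM.Fac

/-!
# The parts of an action which commutes with the monodromy are algebraic subbundles
-/

noncomputable section

namespace GD

open Complex Module NumberField

/-- A spanning family contains a basis. -/
theorem exists_sub_indep {E : Type} [AddCommGroup E] [Module ℂ E] [FiniteDimensional ℂ E]
    {n m : ℕ} (w : Fin n → E) (hm : finrank ℂ (Submodule.span ℂ (Set.range w)) = m) :
    ∃ J : Fin m → Fin n, LinearIndependent ℂ fun i => w (J i) := by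
  obtain ⟨b, hb, hspan, hli⟩ := exists_linearIndependent ℂ (Set.range w)
  have hfin : b.Finite := (Set.finite_range w).subset hb
  have : Fintype b := hfin.fintype
  have hcard : Fintype.card b = m := by
    rw [← hm, ← hspan, finrank_span_set_eq_card hli, Set.toFinset_card]
  let e := (Fintype.equivFinOfCardEq hcard).symm
  have hJ : ∀ i, ∃ j, w j = (e i : E) := fun i => hb (e i).2
  choose J hJ using hJ
  refine ⟨J, ?_⟩
  have h3 : (fun i => w (J i)) = fun i => ((e i : b) : E) := funext hJ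
  rw [h3]
  exact hli.comp e e.injective

section poly

open Polynomial Matrix

variable {m n : ℕ}

/-- The selection matrix. -/
def selM (J₀ J₁ : Fin m → Fin n) (u : ℕ) : Matrix (Fin m) (Fin n) ℤ :=
  Matrix.of fun i j => (1 - (u : ℤ)) * (if J₀ i = j then 1 else 0) +
    (u : ℤ) * (if J₁ i = j then 1 else 0)

/-- The polynomial whose values at `u` are the generic minors. -/
def selP (N : Matrix (Fin n) (Fin n) ℂ) (J₀ J₁ K₀ K₁ : Fin m → Fin n) : ℂ[X] :=
  ((Matrix.of fun i j => (1 - X) * (if J₀ i = j then 1 else 0) +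
      X * (if J₁ i = j then 1 else 0) : Matrix (Fin m) (Fin n) ℂ[X]) * N.map C *
    (Matrix.of fun i j => (1 - X) * (if K₀ j = i then 1 else 0) +
      X * (if K₁ j = i then 1 else 0) : Matrix (Fin n) (Fin m) ℂ[X])).det

theorem selM_eval (J₀ J₁ : Fin m → Fin n) (u : ℕ) (i : Fin m) (j : Fin n) :
    ((selM J₀ J₁ u i j : ℤ) : ℂ) = eval (u : ℂ) ((1 - X) * (if J₀ i = j then 1 else 0) +
      X * (if J₁ i = j then 1 else 0) : ℂ[X]) := by
  rw [selM, Matrix.of_apply]
  push_cast
  split_ifs <;> simp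

theorem selP_eval (N : Matrix (Fin n) (Fin n) ℂ) (J₀ J₁ K₀ K₁ : Fin m → Fin n) (u : ℕ) :
    (selP N J₀ J₁ K₀ K₁).eval (u : ℂ) =
      ((selM J₀ J₁ u).map (Int.cast : ℤ → ℂ) * N * ((selM K₀ K₁ u).map (Int.cast : ℤ → ℂ))ᵀ).det := by
  have h1 : ∀ p : ℂ[X], p.eval (u : ℂ) = evalRingHom (u : ℂ) p := fun _ => rfl
  rw [selP, h1, RingHom.map_det]
  congr 1
  ext i j
  simp only [RingHom.mapMatrix_apply, Matrix.map_apply, Matrix.mul_apply,
    Matrix.transpose_apply, selM_eval, Matrix.of_apply, coe_evalRingHom, eval_finsetSum,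
    eval_mul, eval_C]

theorem selM_mul (N : Matrix (Fin n) (Fin n) ℂ) {J K : Fin m → Fin n}
    {a b : Matrix (Fin m) (Fin n) ℂ} (ha : ∀ i j, a i j = if J i = j then 1 else 0)
    (hb : ∀ i j, b i j = if K i = j then 1 else 0) : a * N * bᵀ = N.submatrix J K := by
  ext i l
  rw [Matrix.mul_apply, Finset.sum_eq_single (K l)]
  · rw [Matrix.mul_apply, Finset.sum_eq_single (J i)]
    · rw [ha, if_pos rfl, one_mul, Matrix.transpose_apply, hb, if_pos rfl, mul_one,
        Matrix.submatrix_apply]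
    · intro j _ hj
      rw [ha, if_neg (Ne.symm hj), zero_mul]
    · simp
  · intro k _ hk
    rw [Matrix.transpose_apply, hb, if_neg (Ne.symm hk), mul_zero]
  · simp

/-- Generic minors. -/
theorem exists_sel {N₀ N₁ : Matrix (Fin n) (Fin n) ℂ} {J₀ J₁ K₀ K₁ : Fin m → Fin n}
    (h₀ : (N₀.submatrix J₀ K₀).det ≠ 0) (h₁ : (N₁.submatrix J₁ K₁).det ≠ 0) :
    ∃ l r : Matrix (Fin m) (Fin n) ℤ,
      (l.map (Int.cast : ℤ → ℂ) * N₀ * (r.map (Int.cast : ℤ → ℂ))ᵀ).det ≠ 0 ∧
      (l.map (Int.cast : ℤ → ℂ) * N₁ * (r.map (Int.cast : ℤ → ℂ))ᵀ).det ≠ 0 := by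
  have h2 : selP N₀ J₀ J₁ K₀ K₁ ≠ 0 := by
    intro h0
    apply h₀
    have h3 := selP_eval N₀ J₀ J₁ K₀ K₁ 0
    rw [h0, eval_zero] at h3
    rw [h3, selM_mul (J := J₀) (K := K₀)] <;> intro i j <;> simp [selM]
  have h3 : selP N₁ J₀ J₁ K₀ K₁ ≠ 0 := by
    intro h0
    apply h₁
    have h3 := selP_eval N₁ J₀ J₁ K₀ K₁ 1
    rw [h0, eval_zero] at h3
    rw [h3, selM_mul (J := J₁) (K := K₁)] <;> intro i j <;> simp [selM]
  have h4 : ∃ u : ℕ, (selP N₀ J₀ J₁ K₀ K₁ * selP N₁ J₀ J₁ K₀ K₁).eval (u : ℂ) ≠ 0 := by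
    by_contra hcon
    push Not at hcon
    exact mul_ne_zero h2 h3 (eq_zero_of_infinite_isRoot _
      (Set.infinite_of_injective_forall_mem (Nat.cast_injective (R := ℂ)) hcon))
  obtain ⟨u, hu⟩ := h4
  rw [eval_mul, selP_eval, selP_eval] at hu
  exact ⟨_, _, left_ne_zero_of_mul hu, right_ne_zero_of_mul hu⟩

end poly

variable {S : Str} {K : Type} [Field K] [NumberField K]

/-- The projector to the part on which `K` acts through `τ`. -/
theorem exists_eigProj (φ : K →ₙ+* Module.End ℂ S.W) (hφ : ∀ a, IsHom S S (φ a)) (τ : K →+* ℂ) :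
    ∃ π : S.W →ₗ[ℂ] S.W, LinearMap.range π = eigenpart φ τ ∧ (∀ w ∈ S.D, π w ∈ S.D) ∧
      ∀ G : S.W →ₗ[ℂ] S.W, (∀ a w, G (φ a w) = φ a (G w)) → ∀ w, G (π w) = π (G w) := by
  let π : S.W →ₗ[ℂ] S.W := ∑ i, τ (bad K i) • φ (bas K i)
  have hπ : ∀ w, π w = ∑ i, τ (bad K i) • φ (bas K i) w := by
    intro w
    change (∑ i, τ (bad K i) • φ (bas K i)) w = _
    rw [LinearMap.sum_apply]
    rfl
  have hrat : ∀ (q : ℚ) (a : K) (w : S.W), φ (q • a) w = (q : ℂ) • φ a w := by
    intro q a w
    have h1 : φ (q • a) = q • φ a := map_rat_smul φ q a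
    rw [h1, LinearMap.smul_apply, ratC_smul]
  refine ⟨π, ?_, ?_, ?_⟩
  · apply le_antisymm
    · rintro _ ⟨x, rfl⟩
      rw [mem_eigenpart]
      intro a
      have h1 : φ a (π x) = ∑ i, τ (bad K i) • φ (a * bas K i) x := by
        rw [hπ, map_sum]
        refine Finset.sum_congr rfl fun i _ => ?_
        rw [map_smul, map_mul]
        rfl
      have h2 : ∀ i, φ (a * bas K i) x =
          ∑ j, ((Algebra.trace ℚ K (bad K j * (a * bas K i)) : ℚ) : ℂ) • φ (bas K j) x := by
        intro i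
        conv_lhs => rw [bas_exp K (a * bas K i)]
        rw [map_sum, LinearMap.sum_apply]
        exact Finset.sum_congr rfl fun j _ => hrat _ _ _
      have h3 : ∀ j, ∑ i, τ (bad K i) *
          ((Algebra.trace ℚ K (bad K j * (a * bas K i)) : ℚ) : ℂ) = τ a * τ (bad K j) := by
        intro j
        rw [← map_mul]
        conv_rhs => rw [bad_exp K (a * bad K j)]
        rw [map_sum]
        refine Finset.sum_congr rfl fun i _ => ?_
        rw [emb_rat_smul, mul_comm]
        congr 3
        ring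
      rw [h1]
      simp only [h2, Finset.smul_sum, smul_smul]
      rw [Finset.sum_comm]
      simp only [← Finset.sum_smul, h3]
      rw [hπ, Finset.smul_sum]
      simp only [smul_smul]
    · intro w hw
      rw [mem_eigenpart] at hw
      refine ⟨w, ?_⟩
      rw [hπ]
      simp only [hw, smul_smul]
      rw [← Finset.sum_smul, orth, if_pos rfl, one_smul]
  · intro w hw
    rw [hπ]
    exact Submodule.sum_mem _ fun i _ => S.D_smul (emb_alg K _ _) ((hφ _).deRham _ hw)
  · intro G hG w
    rw [hπ, hπ, map_sum]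
    refine Finset.sum_congr rfl fun i _ => ?_
    rw [map_smul, hG]

variable {T : Str}

/-- The parts of an action which commutes with the monodromy are algebraic subbundles. -/
theorem CurveFam.algSub_of_comm (V : CurveFam S T) (φ : K →ₙ+* Module.End ℂ S.W)
    (hφ : ∀ a, IsHom S S (φ a)) (hc : ∀ g ∈ V.H.deck, ∀ a w, g.act (φ a w) = φ a (g.act w))
    (τ : K →+* ℂ) : V.AlgSub (eigenpart φ τ) := by
  obtain ⟨π, hπL, hπD, hπG⟩ := exists_eigProj φ hφ τ
  obtain ⟨a, N, ha, ha0, hN, hNz⟩ := V.H.exists_op π V.hs.1 V.hs.2 V.dR_s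
    (fun g hg => hπG g.act (hc g hg)) hπD
  set L : Submodule ℂ S.W := eigenpart φ τ with hLdef
  have hL : LinearMap.range π = L := hπL
  obtain ⟨m, hm⟩ : ∃ m, finrank ℂ L = m := ⟨_, rfl⟩
  have hspan : ∀ z ∈ V.B.U, Submodule.span ℂ (Set.range fun j => π (V.H.ω j z)) = L := by
    intro z hz
    have h1 : (Set.range fun j => π (V.H.ω j z)) = π '' Set.range fun j => V.H.ω j z := by
      rw [← Set.range_comp]
      rfl
    rw [h1, ← Submodule.map_span, V.H.span z hz, Submodule.map_top, hL]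
  have hmin : ∀ z ∈ V.B.U, ∃ J K : Fin m → Fin V.H.n,
      ((Matrix.of fun j k => N j k z : Matrix (Fin V.H.n) (Fin V.H.n) ℂ).submatrix J K).det ≠
        0 := by
    intro z hz
    obtain ⟨J, hJ⟩ := exists_sub_indep (fun j => π (V.H.ω j z)) (by rw [hspan z hz, hm])
    have h1 : LinearIndependent ℂ fun i : Fin m => fun k => N (J i) k z := by
      rw [Fintype.linearIndependent_iff] at hJ ⊢
      intro u hu
      refine hJ u ?_
      have h2 : a z • ∑ i, u i • π (V.H.ω (J i) z) = 0 := by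
        have h3 : ∀ i, a z • u i • π (V.H.ω (J i) z) =
            ∑ k, (u i * N (J i) k z) • V.H.ω k z := by
          intro i
          rw [smul_comm, hNz z hz, Finset.smul_sum]
          exact Finset.sum_congr rfl fun k _ => smul_smul _ _ _
        rw [Finset.smul_sum]
        simp only [h3]
        rw [Finset.sum_comm]
        refine Finset.sum_eq_zero fun k _ => ?_
        rw [← Finset.sum_smul]
        have h4 := congrFun hu k
        rw [Finset.sum_apply] at h4
        have h5 : ∑ i, u i * N (J i) k z = 0 := h4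
        rw [h5, zero_smul]
      exact (smul_eq_zero.1 h2).resolve_left (ha0 z hz)
    obtain ⟨K, hK⟩ := exists_minor (Matrix.of fun i k => N (J i) k z) h1
    exact ⟨J, K, hK⟩
  obtain ⟨J₀, K₀, h₀⟩ := hmin V.s V.hs.1
  obtain ⟨J₁, K₁, h₁⟩ := hmin V.t V.ht.1
  obtain ⟨l, r, hls, hlt⟩ := exists_sel h₀ h₁
  have hsumA : ∀ i k, (∑ j, l i j • N j k) ∈ V.B.A := fun i k =>
    Subalgebra.sum_mem _ fun j _ => zsmul_mem (hN j k) _
  have hsumz : ∀ i k z, (∑ j, l i j • N j k) z =
      (l.map (Int.cast : ℤ → ℂ) *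
        (Matrix.of fun j k => N j k z : Matrix (Fin V.H.n) (Fin V.H.n) ℂ)) i k := by
    intro i k z
    rw [Finset.sum_apply, Matrix.mul_apply]
    refine Finset.sum_congr rfl fun j _ => ?_
    rw [Pi.smul_apply, zsmul_eq_mul]
    rfl
  refine ⟨m, fun i k => ∑ j, l i j • N j k, fun z => (l.map (Int.cast : ℤ → ℂ) *
    (Matrix.of fun j k => N j k z : Matrix (Fin V.H.n) (Fin V.H.n) ℂ) *
      (r.map (Int.cast : ℤ → ℂ)).transpose).det, hsumA, ?_, hls, hlt, ?_⟩
  · refine det_mem_subring (R := V.B.A.toSubring)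
      (Y := fun z => l.map (Int.cast : ℤ → ℂ) *
        (Matrix.of fun j k => N j k z : Matrix (Fin V.H.n) (Fin V.H.n) ℂ) *
          (r.map (Int.cast : ℤ → ℂ)).transpose) fun i i' => ?_
    have h1 : (fun z => (l.map (Int.cast : ℤ → ℂ) *
        (Matrix.of fun j k => N j k z : Matrix (Fin V.H.n) (Fin V.H.n) ℂ) *
          (r.map (Int.cast : ℤ → ℂ)).transpose) i i') =
        ∑ k, r i' k • ∑ j, l i j • N j k := by
      funext z
      rw [Matrix.mul_apply, Finset.sum_apply]
      refine Finset.sum_congr rfl fun k _ => ?_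
      rw [Pi.smul_apply, hsumz, zsmul_eq_mul, mul_comm]
      rfl
    rw [h1]
    exact Subring.sum_mem _ fun k _ => Subring.zsmul_mem _ (hsumA i k) _
  · intro z hz hrz
    refine ⟨fun i => ∑ k, (∑ j, l i j • N j k) z • V.H.ω k z, fun i => rfl, ?_, ?_⟩
    all_goals
      have hlin : LinearIndependent ℂ fun i => ∑ k, (∑ j, l i j • N j k) z • V.H.ω k z := by
        rw [Fintype.linearIndependent_iff]
        intro u hu
        have h1 : ∑ k, (∑ i, u i * (∑ j, l i j • N j k) z) • V.H.ω k z = 0 := by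
          rw [← hu]
          simp only [Finset.smul_sum, smul_smul, Finset.sum_smul]
          exact Finset.sum_comm
        have h2 := (Fintype.linearIndependent_iff.1 (V.H.indep z hz)) _ h1
        have h3 : Matrix.vecMul u (l.map (Int.cast : ℤ → ℂ) *
            (Matrix.of fun j k => N j k z : Matrix (Fin V.H.n) (Fin V.H.n) ℂ)) = 0 := by
          funext k
          have h4 := h2 k
          simp only [hsumz] at h4
          exact h4
        have h5 : Matrix.vecMul u (l.map (Int.cast : ℤ → ℂ) *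
            (Matrix.of fun j k => N j k z : Matrix (Fin V.H.n) (Fin V.H.n) ℂ) *
              (r.map (Int.cast : ℤ → ℂ)).transpose) = 0 := by
          rw [← Matrix.vecMul_vecMul, h3, Matrix.zero_vecMul]
        by_contra hcon
        push Not at hcon
        obtain ⟨i, hi⟩ := hcon
        exact hrz (Matrix.exists_vecMul_eq_zero_iff.1 ⟨u, fun h0 => hi (congrFun h0 i), h5⟩)
    · exact hlin
    · apply Submodule.eq_of_le_of_finrank_eq
      · rw [Submodule.span_le]
        rintro _ ⟨i, rfl⟩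
        have h1 : ∑ k, (∑ j, l i j • N j k) z • V.H.ω k z =
            a z • π (∑ j, (l i j : ℂ) • V.H.ω j z) := by
          rw [map_sum, Finset.smul_sum]
          have h2 : ∀ j, a z • π ((l i j : ℂ) • V.H.ω j z) =
              ∑ k, ((l i j : ℂ) * N j k z) • V.H.ω k z := by
            intro j
            rw [map_smul, smul_comm, hNz z hz, Finset.smul_sum]
            exact Finset.sum_congr rfl fun k _ => smul_smul _ _ _
          simp only [h2]
          rw [Finset.sum_comm]
          refine Finset.sum_congr rfl fun k _ => ?_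
          rw [← Finset.sum_smul, hsumz]
          rfl
        change ∑ k, (∑ j, l i j • N j k) z • V.H.ω k z ∈ L
        rw [h1, ← hL]
        exact Submodule.smul_mem _ _ ⟨_, rfl⟩
      · rw [finrank_span_eq_card hlin, Fintype.card_fin, hm]

end GD
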