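import Pool.Agent.H5.GD.Defs

/-!
# Variations over algebraic curves
-/

noncomputable section

namespace GD

open Complex

/-- The function `a` lies in the ring `A`. -/
abbrev Reg (A : Subalgebra Qbar (ℂ → ℂ)) (a : ℂ → ℂ) : Prop := a ∈ A

/-- A curve over the algebraic numbers. The example is a smooth affine curve with an etale
coordinate `x`, where the open set `U` is the universal cover of the curve, and `A` is the ring of
regular functions on the curve, considered as functions on `U` (they may be extended by their values
at one algebraic point; their values outside `U` play no role). -/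
structure Curve where
  /-- the universal cover -/
  U : Set ℂ
  isOpen : IsOpen U
  conn : IsPreconnected U
  /-- the regular functions on the curve -/
  A : Subalgebra Qbar (ℂ → ℂ)
  /-- an etale coordinate -/
  x : ℂ → ℂ
  x_mem : Reg A x
  etale : ∀ z ∈ U, deriv x z ≠ 0
  hol : ∀ a, Reg A a → DifferentiableOn ℂ a U
  der : ∀ a, Reg A a → ∃ b, Reg A b ∧ ∀ z ∈ U, deriv a z = deriv x z * b z
  val : ∀ a, Reg A a → ∀ z ∈ U, x z ∈ Qbar → a z ∈ Qbar

/-- The polynomials in the regular functions on the curve and the coordinates of the frame `ω`. -/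
def Curve.periodRing (B : Curve) {W : Type} [AddCommGroup W] [Module ℂ W] {n : ℕ}
    (ω : Fin n → ℂ → W) : Subalgebra ℂ (ℂ → ℂ) :=
  Algebra.adjoin ℂ {h | Reg B.A h ∨ ∃ (f : W →ₗ[ℂ] ℂ) (i : Fin n), h = fun z => f (ω i z)}

/-- A transformation of the universal cover together with a monodromy operator on the fibre. -/
structure Deck (S : Str) where
  /-- the transformation of the universal cover -/
  move : ℂ → ℂ
  /-- the monodromy operator -/
  act : S.W →ₗ[ℂ] S.W

/-- A polarised variation of structures on the curve `B`, with an algebraic frame `ω` of the de Rham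
bundle over the algebraic numbers. All fibres are identified with `S.W` by parallel transport along
the universal cover. The example is the cohomology of a smooth projective family over an affine
curve, where `deck` consists of all deck transformations. -/
structure Variation (B : Curve) (S : Str) where
  /-- the rank -/
  n : ℕ
  /-- the algebraic frame of the de Rham bundle -/
  ω : Fin n → ℂ → S.W
  indep : ∀ z ∈ B.U, LinearIndependent ℂ fun i => ω i z
  span : ∀ z ∈ B.U, Submodule.span ℂ (Set.range fun i => ω i z) = ⊤
  /-- the Gauss-Manin connection -/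
  conn : ∀ i, ∃ P : Fin n → ℂ → ℂ, (∀ j, Reg B.A (P j)) ∧ ∀ (f : S.W →ₗ[ℂ] ℂ), ∀ z ∈ B.U,
    HasDerivAt (fun y => f (ω i y)) (deriv B.x z * ∑ j, P j z * f (ω j z)) z
  /-- deck transformations with their monodromy operators -/
  deck : Set (Deck S)
  deck_U : ∀ g ∈ deck, ∀ z ∈ B.U, g.move z ∈ B.U ∧ ∀ a, Reg B.A a → a (g.move z) = a z
  monodromy : ∀ g ∈ deck, ∀ z ∈ B.U, ∀ i, ω i (g.move z) = g.act (ω i z)
  /-- the monodromy preserves a lattice in the rational form -/
  lattice : ∃ Λ : Submodule ℤ S.W, Λ.FG ∧ (∀ w ∈ Λ, w ∈ S.B) ∧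
    (∀ w ∈ S.B, ∃ k : ℕ, 0 < k ∧ k • w ∈ Λ) ∧ ∀ g ∈ deck, ∀ w ∈ Λ, g.act w ∈ Λ
  /-- the monodromy preserves a polarisation -/
  polarised : ∃ P : Pol S, ∀ g ∈ deck, ∀ v w, P.E (g.act v) (g.act w) = P.E v w
  /-- the connection has regular singularities: a polynomial in periods and regular functions on
  the curve, which is invariant under the deck transformations, is a regular function on the curve
  over the complex numbers -/
  regular : ∀ h ∈ B.periodRing ω, (∀ g ∈ deck, ∀ z ∈ B.U, h (g.move z) = h z) →
    ∃ (k : ℕ) (c : Fin k → ℂ) (a : Fin k → ℂ → ℂ), (∀ j, Reg B.A (a j)) ∧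
      ∀ z ∈ B.U, h z = ∑ j, c j * a j z

end GD
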