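import Pool.Agent.H26.FM.Act
import Pool.Agent.H26.FC.Var
import Pool.Agent.H44.FM.GammaDefs

/-!
# Families over algebraic curves
-/

noncomputable section

namespace GD

open Complex

/-- `S` and `T` are fibres of a polarised variation on an affine curve over the algebraic
numbers. -/
structure CurveFam (S T : Str) where
  /-- the curve -/
  B : Curve
  /-- the variation -/
  H : Variation B S
  /-- the parameter of `S` -/
  s : ℂ
  /-- the parameter of `T` -/
  t : ℂ
  hs : s ∈ B.U ∧ B.x s ∈ Qbar
  ht : t ∈ B.U ∧ B.x t ∈ Qbar
  /-- parallel transport from the fibre `S` to the fibre `T` -/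
  par : S.W ≃ₗ[ℂ] T.W
  par_B : ∀ w, w ∈ S.B ↔ par w ∈ T.B
  dR_s : S.D = Submodule.span Qbar (Set.range fun i => H.ω i s)
  dR_t : T.D = Submodule.span Qbar (Set.range fun i => par (H.ω i t))

variable {S T : Str} (V : CurveFam S T)

/-- The action `κ` of the field `K` on a factor of the fibre `S` is flat: it commutes with the
monodromy, and the parts on which `K` acts through one embedding have the same Hodge numbers in the
fibre `T`. -/
def CurveFam.Flat {K : Type} [Field K] (κ : K →ₙ+* Module.End ℂ S.W) : Prop :=
  (∀ g ∈ V.H.deck, ∀ a w, g.act (κ a w) = κ a (g.act w)) ∧ ∀ τ p,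
    Module.finrank ℂ ((eigenpart κ τ).map V.par.toLinearMap ⊓ T.hodge p : Submodule ℂ T.W) =
      Module.finrank ℂ (eigenpart κ τ ⊓ S.hodge p : Submodule ℂ S.W)

/-- All actions of imaginary cyclic subfields `K` of `F` on factors of `S` through the centre of
the endomorphisms are flat, after restriction to some factor which is not zero, in families over
curves with a polarised fibre in the class `C`. -/
def FlatC (C : Str → Prop) (S : Str) {F : Type} [Field F] (e : F →+* ℂ) : Prop :=
  ∀ (K : Type) [Field K] [NumberField K] (i : K →+* F), (∃ x, (e (i x)).im ≠ 0) →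
    IsGalois ℚ K → IsCyclic (K ≃ₐ[ℚ] K) → ∀ κ : K →ₙ+* Module.End ℂ S.W, CentralAction κ →
      ∃ φ, IsRestriction κ φ ∧ ∃ T, Nonempty (Pol T) ∧ C T ∧ ∃ V : CurveFam S T, V.Flat φ

/-- The structure `R` is reached from the class `C₀`: it lies in every class `C` of structures which
contains `C₀` and the polarised structures of gamma type, which is closed under tensor products,
direct sums and quotients, and which contains every polarised structure `S` such that the actions
of imaginary cyclic subfields of `F` through the centre of the endomorphisms of `S` are flat in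
families over curves with a polarised fibre in the class `C`. -/
def ReachedC (C₀ : Str → Prop) {F : Type} [Field F] (e : F →+* ℂ) (R : Str) : Prop :=
  ∀ C : Str → Prop, (∀ S, C₀ S → C S) → (∀ S, Nonempty (Pol S) → GammaType S → C S) →
    (∀ S, Gen C S → C S) → (∀ S, Nonempty (Pol S) → FlatC C S e → C S) → C R

end GD
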