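import Pool.Agent.H26.FC.Fun

/-!
# Descent of solutions of linear systems to the algebraic numbers
-/

noncomputable section

namespace GD

open Complex Filter Topology

/-- A continuous function which vanishes at the algebraic points of the curve is zero. -/
theorem Curve.eq_zero (B : Curve) {f : ℂ → ℂ} (hf : ContinuousOn f B.U)
    (h : ∀ z ∈ B.U, B.x z ∈ Qbar → f z = 0) : ∀ z ∈ B.U, f z = 0 := by
  intro z₀ hz₀
  by_contra h0
  have h1 : {z | f z ≠ 0} ∈ 𝓝 z₀ :=
    (hf.continuousAt (B.isOpen.mem_nhds hz₀)).eventually_ne h0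
  obtain ⟨y, hy, hyU, hyQ⟩ := B.exists_alg hz₀ h1
  exact hy (h y hyU hyQ)

section ode

variable {ι : Type} [Fintype ι]

/-- Uniqueness of the solutions of a linear system on a connected open set. -/
theorem ode_zero {U : Set ℂ} (hU : IsOpen U) (hc : IsPreconnected U) {s : ℂ} (hs : s ∈ U)
    {u : ι → ℂ → ℂ} {K : ι → ι → ℂ → ℂ} (hK : ∀ i j, ContinuousOn (K i j) U)
    (hu : ∀ i, ∀ z ∈ U, HasDerivAt (u i) (∑ j, K i j z * u j z) z) (h0 : ∀ i, u i s = 0) :
    ∀ i, ∀ z ∈ U, u i z = 0 := by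
  obtain ⟨ε, hε, hball⟩ := Metric.isOpen_iff.1 hU s hs
  have hball' : Metric.closedBall s (ε / 2) ⊆ U :=
    (Metric.closedBall_subset_ball (by linarith)).trans hball
  have hb : ∀ i j, ∃ C : ℝ, ∀ z ∈ Metric.closedBall s (ε / 2), ‖K i j z‖ ≤ C := fun i j =>
    (isCompact_closedBall s (ε / 2)).exists_bound_of_continuousOn ((hK i j).mono hball')
  choose C hC using hb
  let D : ℝ := ∑ i, ∑ j, |C i j|
  have hD : ∀ i j, ∀ z ∈ Metric.closedBall s (ε / 2), ‖K i j z‖ ≤ D := by
    intro i j z hz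
    calc ‖K i j z‖ ≤ |C i j| := (hC i j z hz).trans (le_abs_self _)
      _ ≤ ∑ j, |C i j| := Finset.single_le_sum (f := fun j => |C i j|)
          (fun _ _ => abs_nonneg _) (Finset.mem_univ j)
      _ ≤ D := Finset.single_le_sum (f := fun i => ∑ j, |C i j|)
          (fun _ _ => Finset.sum_nonneg fun _ _ => abs_nonneg _) (Finset.mem_univ i)
  have hD0 : 0 ≤ D := Finset.sum_nonneg fun _ _ => Finset.sum_nonneg fun _ _ => abs_nonneg _
  have hloc : ∀ z ∈ Metric.closedBall s (ε / 2), ∀ i, u i z = 0 := by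
    intro z hz
    let γ : ℝ → ℂ := fun τ => s + τ * (z - s)
    have hγ : ∀ τ ∈ Set.Icc (0 : ℝ) 1, γ τ ∈ Metric.closedBall s (ε / 2) := by
      intro τ hτ
      rw [mem_closedBall_iff_norm] at hz ⊢
      change ‖s + τ * (z - s) - s‖ ≤ _
      rw [add_sub_cancel_left, norm_mul, norm_real, Real.norm_of_nonneg hτ.1]
      calc τ * ‖z - s‖ ≤ 1 * ‖z - s‖ := mul_le_mul_of_nonneg_right hτ.2 (norm_nonneg _)
        _ ≤ ε / 2 := by rw [one_mul]; exact hz
    have hγd : ∀ τ : ℝ, HasDerivAt γ (z - s) τ := by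
      intro τ
      have h1 : HasDerivAt (fun τ : ℝ => (τ : ℂ)) 1 τ := Complex.ofRealCLM.hasDerivAt
      have h2 := (h1.mul_const (z - s)).const_add s
      rwa [one_mul] at h2
    let f : ℝ → ι → ℂ := fun τ i => u i (γ τ)
    let f' : ℝ → ι → ℂ := fun τ i => (∑ j, K i j (γ τ) * u j (γ τ)) * (z - s)
    have hf : ∀ τ ∈ Set.Icc (0 : ℝ) 1, HasDerivAt f (f' τ) τ := by
      intro τ hτ
      rw [hasDerivAt_pi]
      intro i
      exact (hu i _ (hball' (hγ τ hτ))).comp τ (hγd τ)
    have hbd : ∀ τ ∈ Set.Ico (0 : ℝ) 1,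
        ‖f' τ‖ ≤ (Fintype.card ι * D * ‖z - s‖) * ‖f τ‖ := by
      intro τ hτ
      have hτ' : τ ∈ Set.Icc (0 : ℝ) 1 := Set.Ico_subset_Icc_self hτ
      rw [pi_norm_le_iff_of_nonneg (by positivity)]
      intro i
      change ‖(∑ j, K i j (γ τ) * u j (γ τ)) * (z - s)‖ ≤ _
      rw [norm_mul]
      have h1 : ‖∑ j, K i j (γ τ) * u j (γ τ)‖ ≤ Fintype.card ι * D * ‖f τ‖ := by
        calc ‖∑ j, K i j (γ τ) * u j (γ τ)‖ ≤ ∑ j : ι, D * ‖f τ‖ := by
              refine norm_sum_le_of_le _ fun j _ => ?_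
              rw [norm_mul]
              exact mul_le_mul (hD i j _ (hγ τ hτ')) (norm_le_pi_norm (f τ) j) (norm_nonneg _)
                hD0
          _ = Fintype.card ι * D * ‖f τ‖ := by
              rw [Finset.sum_const, Finset.card_univ, nsmul_eq_mul]
              ring
      calc ‖∑ j, K i j (γ τ) * u j (γ τ)‖ * ‖z - s‖
          ≤ Fintype.card ι * D * ‖f τ‖ * ‖z - s‖ :=
            mul_le_mul_of_nonneg_right h1 (norm_nonneg _)
        _ = _ := by ring
    have h1 := eq_zero_of_abs_deriv_le_mul_abs_self_of_eq_zero_right (f := f) (f' := f')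
      (a := 0) (b := 1) (fun τ hτ => (hf τ hτ).continuousAt.continuousWithinAt)
      (fun τ hτ => (hf τ (Set.Ico_subset_Icc_self hτ)).hasDerivWithinAt)
      (by
        funext i
        change u i (γ 0) = 0
        have h2 : γ 0 = s := by simp [γ]
        rw [h2, h0])
      hbd 1 (Set.right_mem_Icc.2 zero_le_one)
    intro i
    have h2 := congrFun h1 i
    have h3 : γ 1 = z := by simp [γ]
    change u i (γ 1) = 0 at h2
    rwa [h3] at h2
  intro i
  have h1 : AnalyticOnNhd ℂ (u i) U :=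
    DifferentiableOn.analyticOnNhd
      (fun z hz => (hu i z hz).differentiableAt.differentiableWithinAt) hU
  have h2 : u i =ᶠ[𝓝 s] 0 := by
    filter_upwards [Metric.closedBall_mem_nhds s (half_pos hε)] with z hz
    exact hloc z hz i
  exact fun z hz => h1.eqOn_zero_of_preconnected_of_eventuallyEq_zero hc hs h2 hz

end ode

/-- The function `h` is a regular function on the curve over the complex numbers. -/
def Curve.RegC (B : Curve) (h : ℂ → ℂ) : Prop :=
  ∃ (k : ℕ) (c : Fin k → ℂ) (a : Fin k → ℂ → ℂ), (∀ j, a j ∈ B.A) ∧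
    ∀ z ∈ B.U, h z = ∑ j, c j * a j z

theorem exists_ellQ : ∃ l : ℂ →ₗ[Qbar] Qbar, ∀ q : Qbar, l q = q := by
  obtain ⟨l, hl⟩ := LinearMap.exists_leftInverse_of_injective (Algebra.linearMap Qbar ℂ)
    (LinearMap.ker_eq_bot.2 (algebraMap Qbar ℂ).injective)
  exact ⟨l, fun q => LinearMap.congr_fun hl q⟩

theorem ellQ_mul (l : ℂ →ₗ[Qbar] Qbar) {a : ℂ} (ha : a ∈ Qbar) (c : ℂ) :
    (l (a * c) : ℂ) = a * l c := by
  have h1 : a * c = (⟨a, ha⟩ : Qbar) • c := rfl
  rw [h1, map_smul]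
  rfl

/-- The solutions of a linear system over the regular functions, which are regular functions over
the complex numbers and have algebraic values at an algebraic point, are regular functions. -/
theorem Curve.descent (B : Curve) {ι : Type} [Fintype ι] {s : ℂ} (hs : s ∈ B.U)
    (hxs : B.x s ∈ Qbar) {y : ι → ℂ → ℂ} (hy : ∀ i, B.RegC (y i)) {M : ι → ι → ℂ → ℂ}
    (hM : ∀ i j, M i j ∈ B.A)
    (hd : ∀ i, ∀ z ∈ B.U, HasDerivAt (y i) (deriv B.x z * ∑ j, M i j z * y j z) z)
    (hys : ∀ i, y i s ∈ Qbar) :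
    ∃ b : ι → ℂ → ℂ, (∀ i, b i ∈ B.A) ∧ ∀ i, ∀ z ∈ B.U, y i z = b i z := by
  obtain ⟨l, hl⟩ := exists_ellQ
  choose k c a ha hya using hy
  have hda : ∀ i j, ∃ a' ∈ B.A, ∀ z ∈ B.U, deriv (a i j) z = deriv B.x z * a' z :=
    fun i j => B.der _ (ha i j)
  choose a' ha' hda using hda
  let b : ι → ℂ → ℂ := fun i => ∑ j, (l (c i j)) • a i j
  let b' : ι → ℂ → ℂ := fun i => ∑ j, (l (c i j)) • a' i j
  have hb : ∀ i, b i ∈ B.A := fun i =>
    Subalgebra.sum_mem _ fun j _ => B.A.smul_mem (ha i j) _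
  have hb' : ∀ i, b' i ∈ B.A := fun i =>
    Subalgebra.sum_mem _ fun j _ => B.A.smul_mem (ha' i j) _
  have hbz : ∀ i z, b i z = ∑ j, (l (c i j) : ℂ) * a i j z := by
    intro i z
    change (∑ j, (l (c i j)) • a i j) z = _
    rw [Finset.sum_apply]
    rfl
  have hbz' : ∀ i z, b' i z = ∑ j, (l (c i j) : ℂ) * a' i j z := by
    intro i z
    change (∑ j, (l (c i j)) • a' i j) z = _
    rw [Finset.sum_apply]
    rfl
  -- the values at algebraic points
  have key : ∀ i (f : Fin (k i) → ℂ), (∀ j, f j ∈ Qbar) →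
      ∑ j, (l (c i j) : ℂ) * f j = l (∑ j, c i j * f j) := by
    intro i f hf
    rw [map_sum]
    push_cast
    refine Finset.sum_congr rfl fun j _ => ?_
    rw [mul_comm (c i j), ellQ_mul l (hf j), mul_comm]
  have hbl : ∀ i, ∀ z ∈ B.U, B.x z ∈ Qbar → b i z = l (y i z) := by
    intro i z hz hxz
    rw [hbz, hya i z hz]
    exact key i _ fun j => B.val _ (ha i j) z hz hxz
  have hbd : ∀ i, ∀ z ∈ B.U, HasDerivAt (b i) (deriv B.x z * b' i z) z := by
    intro i z hz
    have h1 : ∀ j, HasDerivAt (a i j) (deriv B.x z * a' i j z) z := fun j => by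
      rw [← hda i j z hz]
      exact ((B.hol _ (ha i j)).differentiableAt (B.isOpen.mem_nhds hz)).hasDerivAt
    have h2 := HasDerivAt.fun_sum (u := Finset.univ) (A := fun j z => (l (c i j) : ℂ) * a i j z)
      fun j _ => (h1 j).const_mul (l (c i j) : ℂ)
    have h3 : b i = fun z => ∑ j, (l (c i j) : ℂ) * a i j z := funext (hbz i)
    rw [h3]
    refine h2.congr_deriv ?_
    rw [hbz', Finset.mul_sum]
    exact Finset.sum_congr rfl fun j _ => by ring
  have hyd : ∀ i, ∀ z ∈ B.U, ∑ j, c i j * a' i j z = ∑ j, M i j z * y j z := by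
    intro i z hz
    have h1 : ∀ j, HasDerivAt (a i j) (deriv B.x z * a' i j z) z := fun j => by
      rw [← hda i j z hz]
      exact ((B.hol _ (ha i j)).differentiableAt (B.isOpen.mem_nhds hz)).hasDerivAt
    have h2 := HasDerivAt.fun_sum (u := Finset.univ) (A := fun j z => c i j * a i j z)
      fun j _ => (h1 j).const_mul (c i j)
    have h3 : y i =ᶠ[𝓝 z] fun z => ∑ j, c i j * a i j z := by
      filter_upwards [B.isOpen.mem_nhds hz] with w hw
      exact hya i w hw
    have h4 := (h2.congr_of_eventuallyEq h3).unique (hd i z hz)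
    apply mul_left_cancel₀ (B.etale z hz)
    rw [← h4, Finset.mul_sum]
    exact Finset.sum_congr rfl fun j _ => by ring
  have hcont : ∀ f ∈ B.A, ContinuousOn f B.U := fun f hf => (B.hol f hf).continuousOn
  have hsys : ∀ i, ∀ z ∈ B.U, b' i z = ∑ j, M i j z * b j z := by
    intro i z hz
    have h1 : ∀ z ∈ B.U, (fun z => b' i z - ∑ j, M i j z * b j z) z = 0 := by
      refine B.eq_zero ?_ ?_
      · refine (hcont _ (hb' i)).sub (continuousOn_finsetSum _ fun j _ => ?_)
        exact (hcont _ (hM i j)).mul (hcont _ (hb j))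
      · intro z hz hxz
        rw [hbz', key i _ fun j => B.val _ (ha' i j) z hz hxz, hyd i z hz, map_sum, sub_eq_zero]
        push_cast
        refine Finset.sum_congr rfl fun j _ => ?_
        rw [ellQ_mul l (B.val _ (hM i j) z hz hxz), hbl j z hz hxz]
    exact sub_eq_zero.1 (h1 z hz)
  refine ⟨b, hb, fun i z hz => ?_⟩
  have h1 := ode_zero B.isOpen B.conn hs (u := fun i z => y i z - b i z)
    (K := fun i j z => deriv B.x z * M i j z) (fun i j => ?_) (fun i z hz => ?_) (fun i => ?_) i z hz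
  · exact sub_eq_zero.1 h1
  · exact ((B.hol _ B.x_mem).deriv B.isOpen).continuousOn.mul (hcont _ (hM i j))
  · refine ((hd i z hz).fun_sub (hbd i z hz)).congr_deriv ?_
    rw [hsys i z hz, ← mul_sub, ← Finset.sum_sub_distrib, Finset.mul_sum]
    exact Finset.sum_congr rfl fun j _ => by ring
  · rw [hbl i s hs hxs, sub_eq_zero]
    exact congrArg (fun q : Qbar => (q : ℂ)) (hl ⟨y i s, hys i⟩).symm

end GD
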