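import Pool.Agent.H26.FC.Fun
import Pool.Agent.H26.FM.Comb

/-!
# Frames of subbundles over a curve
-/

noncomputable section

namespace GD

open Complex

/-- Evaluation of the regular functions. -/
def Curve.ev (B : Curve) (z : ℂ) : B.A →ₐ[Qbar] ℂ :=
  (Pi.evalAlgHom Qbar (fun _ : ℂ => ℂ) z).comp B.A.val

theorem Curve.ev_apply (B : Curve) (z : ℂ) (a : B.A) : B.ev z a = (a : ℂ → ℂ) z := rfl

variable {B : Curve} {S : Str} (H : Variation B S) {m : ℕ}

/-- The sections with the coordinates `c` in the algebraic frame. -/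
def Variation.comb (c : Matrix (Fin m) (Fin H.n) B.A) (i : Fin m) (z : ℂ) : S.W :=
  ∑ j, B.ev z (c i j) • H.ω j z

theorem Variation.map_comb (c : Matrix (Fin m) (Fin H.n) B.A) (f : S.W →ₗ[ℂ] ℂ) (i : Fin m)
    (z : ℂ) : f (H.comb c i z) = ∑ j, B.ev z (c i j) * f (H.ω j z) := by
  simp only [Variation.comb, map_sum, map_smul, smul_eq_mul]

/-- The derivatives of the sections. -/
theorem Variation.exists_der (c : Matrix (Fin m) (Fin H.n) B.A) :
    ∃ e : Matrix (Fin m) (Fin H.n) B.A, ∀ (f : S.W →ₗ[ℂ] ℂ), ∀ z ∈ B.U, ∀ i,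
      HasDerivAt (fun y => f (H.comb c i y)) (deriv B.x z * f (H.comb e i z)) z := by
  choose P hP hder using H.conn
  choose b hb hbder using fun (i : Fin m) (j : Fin H.n) => B.der (c i j) (c i j).2
  let P' : Matrix (Fin H.n) (Fin H.n) B.A := fun i j => ⟨P i j, hP i j⟩
  let b' : Matrix (Fin m) (Fin H.n) B.A := fun i j => ⟨b i j, hb i j⟩
  refine ⟨b' + c * P', fun f z hz i => ?_⟩
  have h1 : (fun y => f (H.comb c i y)) = fun y => ∑ j, B.ev y (c i j) * f (H.ω j y) := by
    funext y
    exact H.map_comb c f i y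
  rw [h1]
  have h2 : HasDerivAt (fun y => ∑ j, B.ev y (c i j) * f (H.ω j y))
      (∑ j, (deriv B.x z * b i j z * f (H.ω j z) +
        B.ev z (c i j) * (deriv B.x z * ∑ l, P j l z * f (H.ω l z)))) z := by
    refine HasDerivAt.fun_sum fun j _ => ?_
    have h3 := (B.hasDerivAt (c i j).2 hz).fun_mul (hder j f z hz)
    rwa [hbder i j z hz] at h3
  refine h2.congr_deriv ?_
  rw [H.map_comb, Finset.mul_sum]
  have h3 : ∀ j, deriv B.x z * (B.ev z ((b' + c * P') i j) * f (H.ω j z)) =
      deriv B.x z * b i j z * f (H.ω j z) +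
        ∑ l, B.ev z (c i l) * (deriv B.x z * (P l j z * f (H.ω j z))) := by
    intro j
    rw [Matrix.add_apply, Matrix.mul_apply, map_add, map_sum, add_mul, mul_add, Finset.sum_mul,
      Finset.mul_sum]
    congr 1
    · change deriv B.x z * (b i j z * f (H.ω j z)) = _
      ring
    · refine Finset.sum_congr rfl fun l _ => ?_
      rw [map_mul]
      change deriv B.x z * (B.ev z (c i l) * P l j z * f (H.ω j z)) = _
      ring
  rw [Finset.sum_congr rfl fun j _ => h3 j, Finset.sum_add_distrib, Finset.sum_add_distrib]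
  congr 1
  rw [Finset.sum_comm]
  refine Finset.sum_congr rfl fun j _ => ?_
  rw [Finset.mul_sum, Finset.mul_sum]

/-- The connection preserves the sections of `L`. -/
theorem Variation.conn_mem {L : Submodule ℂ S.W} {c e : Matrix (Fin m) (Fin H.n) B.A}
    (he : ∀ (f : S.W →ₗ[ℂ] ℂ), ∀ z ∈ B.U, ∀ i,
      HasDerivAt (fun y => f (H.comb c i y)) (deriv B.x z * f (H.comb e i z)) z)
    (hL : ∀ z ∈ B.U, ∀ i, H.comb c i z ∈ L) : ∀ z ∈ B.U, ∀ i, H.comb e i z ∈ L := by
  intro z hz i
  refine mem_of_forms fun f hf => ?_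
  have h1 := he f z hz i
  have h2 : (fun y => f (H.comb c i y)) =ᶠ[nhds z] fun _ => 0 := by
    filter_upwards [B.isOpen.mem_nhds hz] with y hy
    exact hf _ (hL y hy i)
  have h3 := (h1.congr_of_eventuallyEq h2.symm).unique (hasDerivAt_const z (0 : ℂ))
  exact (mul_eq_zero.1 h3).resolve_left (B.etale z hz)

/-- The matrix of the connection on the subbundle. -/
theorem Variation.stable {L : Submodule ℂ S.W} {c e : Matrix (Fin m) (Fin H.n) B.A} {z : ℂ}
    (hz : z ∈ B.U) (he : ∀ i, H.comb e i z ∈ L)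
    (hL : Submodule.span ℂ (Set.range fun i => H.comb c i z) = L) (J : Fin m → Fin H.n)
    (i : Fin m) :
    B.ev z (c.submatrix id J).det • H.comb e i z =
      ∑ k, B.ev z ((e.submatrix id J * (c.submatrix id J).adjugate) i k) • H.comb c k z := by
  have h1 : ∀ i, ∃ a : Fin m → ℂ, ∑ l, a l • H.comb c l z = H.comb e i z := by
    intro i
    have h2 := he i
    rw [← hL] at h2
    exact (Submodule.mem_span_range_iff_exists_fun ℂ).1 h2
  choose a ha using h1
  let cx : Matrix (Fin m) (Fin H.n) ℂ := c.map (B.ev z)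
  let ex : Matrix (Fin m) (Fin H.n) ℂ := e.map (B.ev z)
  have h2 : ex = Matrix.of a * cx := by
    ext1 i
    have h3 : ∑ j, ex i j • H.ω j z = ∑ j, (Matrix.of a * cx) i j • H.ω j z := by
      have h4 := ha i
      simp only [Variation.comb, Finset.smul_sum, smul_smul] at h4
      rw [Finset.sum_comm] at h4
      simp only [← Finset.sum_smul] at h4
      exact h4.symm
    exact congrFun (coeff_unique (H.indep z hz) h3)
  have h5 : ((cx.submatrix id J).det • ex) =
      (ex.submatrix id J * (cx.submatrix id J).adjugate) * cx := by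
    have h6 : ex.submatrix id J = Matrix.of a * cx.submatrix id J := by
      rw [h2]
      rfl
    rw [h6, Matrix.mul_assoc (Matrix.of a), Matrix.mul_adjugate, Matrix.mul_smul,
      Matrix.mul_one, Matrix.smul_mul, ← h2]
  have hdet : B.ev z ((c.submatrix id J).det) = (cx.submatrix id J).det := by
    rw [AlgHom.map_det]
    rfl
  have hadj : (B.ev z).mapMatrix ((c.submatrix id J).adjugate) =
      (cx.submatrix id J).adjugate := by
    rw [AlgHom.map_adjugate]
    rfl
  have hH : ∀ k, B.ev z ((e.submatrix id J * (c.submatrix id J).adjugate) i k) =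
      (ex.submatrix id J * (cx.submatrix id J).adjugate) i k := by
    intro k
    rw [Matrix.mul_apply, Matrix.mul_apply, map_sum, ← hadj]
    refine Finset.sum_congr rfl fun l _ => ?_
    rw [map_mul]
    rfl
  simp only [Variation.comb, hdet, hH, Finset.smul_sum, smul_smul]
  rw [Finset.sum_comm]
  refine Finset.sum_congr rfl fun j _ => ?_
  rw [← Finset.sum_smul]
  congr 1
  have h7 := congrFun (congrFun h5 i) j
  rw [Matrix.smul_apply, Matrix.mul_apply] at h7
  exact h7

/-- The determinant of the sections in a fixed basis satisfies a logarithmic equation. -/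
theorem Variation.hasDerivAt_det {L : Submodule ℂ S.W} {c e : Matrix (Fin m) (Fin H.n) B.A}
    {z : ℂ} (hz : z ∈ B.U)
    (he : ∀ (f : S.W →ₗ[ℂ] ℂ), ∀ i,
      HasDerivAt (fun y => f (H.comb c i y)) (deriv B.x z * f (H.comb e i z)) z)
    (heL : ∀ i, H.comb e i z ∈ L)
    (hL : Submodule.span ℂ (Set.range fun i => H.comb c i z) = L) (J : Fin m → Fin H.n)
    (hD : B.ev z (c.submatrix id J).det ≠ 0) (g : S.W →ₗ[ℂ] (Fin m → ℂ)) :
    HasDerivAt (fun y => (Matrix.of fun i j => g (H.comb c i y) j).det)
      (deriv B.x z * (B.ev z (e.submatrix id J * (c.submatrix id J).adjugate).trace /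
        B.ev z (c.submatrix id J).det) * (Matrix.of fun i j => g (H.comb c i z) j).det) z := by
  set D := (c.submatrix id J).det with hDdef
  set N := e.submatrix id J * (c.submatrix id J).adjugate with hN
  let Hz : Matrix (Fin m) (Fin m) ℂ := fun i j => deriv B.x z * (B.ev z (N i j) / B.ev z D)
  have htr : deriv B.x z * (B.ev z N.trace / B.ev z D) = Hz.trace := by
    rw [Matrix.trace, Matrix.trace, map_sum, Finset.sum_div, Finset.mul_sum]
    rfl
  rw [htr]
  refine hasDerivAt_det_of_system (Y := fun y => Matrix.of fun i j => g (H.comb c i y) j)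
    (H := Hz) fun i j => ?_
  refine (he ((LinearMap.proj j).comp g) i).congr_deriv ?_
  have h2 := H.stable hz heL hL J i
  have h3 := congrArg (fun w => g w j) h2
  simp only [map_smul, map_sum, Pi.smul_apply, smul_eq_mul, Finset.sum_apply] at h3
  rw [← hDdef, ← hN] at h3
  rw [Matrix.mul_apply]
  apply mul_left_cancel₀ hD
  change B.ev z D * (deriv B.x z * g (H.comb e i z) j) = _
  rw [Finset.mul_sum]
  have h4 : B.ev z D * (deriv B.x z * g (H.comb e i z) j) =
      deriv B.x z * (B.ev z D * g (H.comb e i z) j) := by ring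
  rw [h4, h3, Finset.mul_sum]
  refine Finset.sum_congr rfl fun k _ => ?_
  change deriv B.x z * (B.ev z (N i k) * g (H.comb c k z) j) =
    B.ev z D * (deriv B.x z * (B.ev z (N i k) / B.ev z D) * g (H.comb c k z) j)
  field_simp

/-- The determinant of the sections in a fixed basis is a polynomial in periods and regular
functions. -/
theorem Variation.det_mem (c : Matrix (Fin m) (Fin H.n) B.A) (g : S.W →ₗ[ℂ] (Fin m → ℂ)) :
    (fun y => (Matrix.of fun i j => g (H.comb c i y) j).det) ∈ B.periodRing H.ω := by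
  have h1 : ∀ i j, (fun y => g (H.comb c i y) j) ∈ B.periodRing H.ω := by
    intro i j
    have h2 : (fun y => g (H.comb c i y) j) =
        ∑ l, ((c i l : ℂ → ℂ) * fun y => ((LinearMap.proj j).comp g) (H.ω l y)) := by
      funext y
      rw [Finset.sum_apply]
      exact H.map_comb c ((LinearMap.proj j).comp g) i y
    rw [h2]
    refine sum_mem fun l _ => mul_mem (Algebra.subset_adjoin (Or.inl (c i l).2))
      (Algebra.subset_adjoin (Or.inr ⟨(LinearMap.proj j).comp g, l, rfl⟩))
  let Y : Matrix (Fin m) (Fin m) (B.periodRing H.ω) := fun i j => ⟨_, h1 i j⟩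
  have h2 : (fun y => (Matrix.of fun i j => g (H.comb c i y) j).det) =
      (B.periodRing H.ω).val Y.det := by
    funext y
    have h3 : ((B.periodRing H.ω).val Y.det) y =
        ((Pi.evalAlgHom ℂ (fun _ : ℂ => ℂ) y).comp (B.periodRing H.ω).val) Y.det := rfl
    rw [h3, AlgHom.map_det]
    rfl
  rw [h2]
  exact Y.det.2

end GD
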