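import Pool.Agent.H26.FC.Desc
import Pool.Agent.H26.FM.Jac
import Pool.Agent.H26.FM.Lin
import Pool.Agent.H44.GD.Sub

/-!
# Operators which commute with the monodromy
-/

noncomputable section

namespace GD

open Complex Filter Topology Module

/-! ### Determinants of functions -/

theorem det_mem_subring {R : Subring (ℂ → ℂ)} {m : ℕ} {Y : ℂ → Matrix (Fin m) (Fin m) ℂ}
    (h : ∀ i j, (fun z => Y z i j) ∈ R) : (fun z => (Y z).det) ∈ R := by
  have h1 : (fun z => (Y z).det) =
      ∑ σ : Equiv.Perm (Fin m), Equiv.Perm.sign σ • ∏ i, fun z => Y z (σ i) i := by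
    funext z
    rw [Finset.sum_apply, Matrix.det_apply]
    refine Finset.sum_congr rfl fun σ _ => ?_
    rw [Pi.smul_apply, Finset.prod_apply]
  rw [h1]
  refine Subring.sum_mem _ fun σ _ => ?_
  rw [Units.smul_def]
  exact Subring.zsmul_mem _ (Subring.prod_mem _ fun i _ => h _ _) _

/-- An operator which preserves a nondegenerate form has determinant `1` or `-1`. -/
theorem det_sq_of_pol {S : Str} (P : Pol S) {G : S.W →ₗ[ℂ] S.W}
    (hG : ∀ v w, P.E (G v) (G w) = P.E v w) : LinearMap.det G ^ 2 = 1 := by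
  let b := Module.finBasis ℂ S.W
  have h1 : P.E.compl₁₂ G G = P.E := by
    ext v w
    exact hG v w
  have h2 := LinearMap.toMatrix₂_compl₁₂ b b b b P.E G G
  rw [h1] at h2
  have h3 := congrArg Matrix.det h2
  rw [Matrix.det_mul, Matrix.det_mul, Matrix.det_transpose, LinearMap.det_toMatrix] at h3
  have h4 : (LinearMap.toMatrix₂ b b P.E).det ≠ 0 := by
    rw [← LinearMap.separatingLeft_iff_det_ne_zero]
    intro x hx
    refine pol_nondeg P isSub_top (x := x) ?_ fun y _ => hx y
    rw [Str.cx_B]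
    exact Submodule.mem_top
  apply mul_right_cancel₀ h4
  linear_combination -h3

variable {B : Curve} {S : Str} (H : Variation B S)

/-- The elements of the ring of periods are holomorphic. -/
theorem Variation.differentiableOn {h : ℂ → ℂ} (hh : h ∈ B.periodRing H.ω) :
    DifferentiableOn ℂ h B.U := by
  unfold Curve.periodRing at hh
  induction hh using Algebra.adjoin_induction with
  | mem h hh =>
    rcases hh with hh | ⟨f, i, rfl⟩
    · exact B.hol h hh
    · obtain ⟨P, -, hP⟩ := H.conn i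
      exact fun z hz => (hP f z hz).differentiableAt.differentiableWithinAt
  | algebraMap r => exact differentiableOn_const r
  | add x y _ _ hx hy => exact hx.add hy
  | mul x y _ _ hx hy => exact hx.mul hy

theorem Variation.coord_mem (f : S.W →ₗ[ℂ] ℂ) (i : Fin H.n) :
    (fun z => f (H.ω i z)) ∈ B.periodRing H.ω :=
  Algebra.subset_adjoin (Or.inr ⟨f, i, rfl⟩)

/-- The determinant of the frame. -/
def Variation.wr (b : Basis (Fin H.n) ℂ S.W) (z : ℂ) : ℂ := b.det fun i => H.ω i z

/-- The coordinates of the frame. -/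
def Variation.mat (b : Basis (Fin H.n) ℂ S.W) (z : ℂ) : Matrix (Fin H.n) (Fin H.n) ℂ :=
  Matrix.of fun i j => b.coord j (H.ω i z)

variable (b : Basis (Fin H.n) ℂ S.W)

theorem Variation.wr_eq (z : ℂ) : H.wr b z = (H.mat b z).det := by
  rw [Variation.wr, Basis.det_apply, ← Matrix.det_transpose]
  rfl

theorem Variation.wr_mem : H.wr b ∈ B.periodRing H.ω := by
  have h1 : H.wr b = fun z => (H.mat b z).det := funext (H.wr_eq b)
  rw [h1]
  exact det_mem_subring (R := (B.periodRing H.ω).toSubring) fun i j => H.coord_mem (b.coord j) i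

theorem Variation.wr_ne {z : ℂ} (hz : z ∈ B.U) : H.wr b z ≠ 0 := by
  have h1 := (b.is_basis_iff_det (v := fun i => H.ω i z)).1 ⟨H.indep z hz, H.span z hz⟩
  exact h1.ne_zero

theorem Variation.wr_deck {g : Deck S} (hg : g ∈ H.deck) {z : ℂ}
    (hz : z ∈ B.U) : H.wr b (g.move z) ^ 2 = H.wr b z ^ 2 := by
  obtain ⟨P, hP⟩ := H.polarised
  have h1 : H.wr b (g.move z) = LinearMap.det g.act * H.wr b z := by
    rw [Variation.wr, Variation.wr, ← Basis.det_comp]
    congr 1
    funext i
    exact H.monodromy g hg z hz i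
  rw [h1, mul_pow, det_sq_of_pol P (hP g hg), one_mul]

/-- The matrix of the connection. -/
theorem Variation.exists_conn : ∃ P : Fin H.n → Fin H.n → ℂ → ℂ, (∀ i j, P i j ∈ B.A) ∧
    ∀ i (f : S.W →ₗ[ℂ] ℂ), ∀ z ∈ B.U,
      HasDerivAt (fun y => f (H.ω i y)) (deriv B.x z * ∑ j, P i j z * f (H.ω j z)) z := by
  choose P hP using H.conn
  exact ⟨P, fun i => (hP i).1, fun i => (hP i).2⟩

theorem Variation.wr_deriv {P : Fin H.n → Fin H.n → ℂ → ℂ}
    (hP : ∀ i (f : S.W →ₗ[ℂ] ℂ), ∀ z ∈ B.U,
      HasDerivAt (fun y => f (H.ω i y)) (deriv B.x z * ∑ j, P i j z * f (H.ω j z)) z)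
    {z : ℂ} (hz : z ∈ B.U) :
    HasDerivAt (fun z => H.wr b z ^ 2)
      (deriv B.x z * (2 * (∑ i, P i i z) * H.wr b z ^ 2)) z := by
  have h1 := hasDerivAt_det_of_system (Y := H.mat b)
    (H := Matrix.of fun i j => deriv B.x z * P i j z) (x := z) (fun i j => by
      refine (hP i (b.coord j) z hz).congr_deriv ?_
      rw [Matrix.mul_apply, Finset.mul_sum]
      exact Finset.sum_congr rfl fun k _ => by
        change _ = deriv B.x z * P i k z * b.coord j (H.ω k z)
        ring)
  have h2 : (fun y => (H.mat b y).det) = H.wr b := (funext (H.wr_eq b)).symm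
  have h3 : (Matrix.of fun i j => deriv B.x z * P i j z : Matrix (Fin H.n) (Fin H.n) ℂ).trace =
      deriv B.x z * ∑ i, P i i z := by
    rw [Matrix.trace, Finset.mul_sum]
    rfl
  rw [h2, h3, ← H.wr_eq b] at h1
  refine (h1.fun_pow 2).congr_deriv ?_
  push_cast
  ring

/-- The square of the determinant of the frame is a regular function, up to a constant. -/
theorem Variation.exists_wr {s : ℂ} (hs : s ∈ B.U) (hxs : B.x s ∈ Qbar) (hb : H.wr b s = 1) :
    ∃ a ∈ B.A, ∀ z ∈ B.U, H.wr b z ^ 2 = a z := by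
  obtain ⟨P, hPA, hP⟩ := H.exists_conn
  have h1 : B.RegC fun z => H.wr b z ^ 2 :=
    H.regular _ (pow_mem (H.wr_mem b) 2) fun g hg z hz => H.wr_deck b hg hz
  have hA : (fun z => 2 * ∑ i, P i i z) ∈ B.A := by
    have h2 : (fun z => 2 * ∑ i, P i i z) = (2 : ℕ) • ∑ i, P i i := by
      funext z
      rw [Pi.smul_apply, Finset.sum_apply, nsmul_eq_mul]
      norm_num
    rw [h2]
    exact nsmul_mem (Subalgebra.sum_mem _ fun i _ => hPA i i) 2
  obtain ⟨a, ha, haz⟩ := B.descent (ι := Unit) hs hxs (y := fun _ z => H.wr b z ^ 2)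
    (fun _ => h1) (M := fun _ _ z => 2 * ∑ i, P i i z) (fun _ _ => hA)
    (fun _ z hz => by
      refine (H.wr_deriv b hP hz).congr_deriv ?_
      simp)
    (fun _ => by
      rw [hb, one_pow]
      exact one_mem Qbar)
  exact ⟨a (), ha (), haz ()⟩

/-- The matrix of an operator in the frame, multiplied by the square of the determinant. -/
def Variation.opm (π : S.W →ₗ[ℂ] S.W) (j k : Fin H.n) (z : ℂ) : ℂ :=
  H.wr b z * ((H.mat b z).updateRow k fun l => b.coord l (π (H.ω j z))).det

variable (π : S.W →ₗ[ℂ] S.W)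

theorem Variation.opm_mem (j k : Fin H.n) : H.opm b π j k ∈ B.periodRing H.ω := by
  refine mul_mem (H.wr_mem b) ?_
  refine det_mem_subring (R := (B.periodRing H.ω).toSubring)
    (Y := fun z => (H.mat b z).updateRow k fun l => b.coord l (π (H.ω j z))) fun i l => ?_
  by_cases hi : i = k
  · subst hi
    have h1 : (fun z => ((H.mat b z).updateRow i fun l => b.coord l (π (H.ω j z))) i l) =
        fun z => (b.coord l ∘ₗ π) (H.ω j z) := by
      funext z
      rw [Matrix.updateRow_self]
      rfl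
    rw [h1]
    exact H.coord_mem _ j
  · have h1 : (fun z => ((H.mat b z).updateRow k fun l => b.coord l (π (H.ω j z))) i l) =
        fun z => b.coord l (H.ω i z) := by
      funext z
      rw [Matrix.updateRow_ne hi]
      rfl
    rw [h1]
    exact H.coord_mem _ i

/-- Cramer's rule. -/
theorem Variation.opm_eq {j : Fin H.n} {z : ℂ} {h : Fin H.n → ℂ}
    (hh : π (H.ω j z) = ∑ k, h k • H.ω k z) (k : Fin H.n) :
    H.opm b π j k z = H.wr b z ^ 2 * h k := by
  have h1 : (fun l => b.coord l (π (H.ω j z))) = ∑ k, h k • H.mat b z k := by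
    funext l
    rw [hh, map_sum, Finset.sum_apply]
    refine Finset.sum_congr rfl fun k _ => ?_
    rw [map_smul]
    rfl
  rw [Variation.opm, h1, Matrix.det_updateRow_sum, ← H.wr_eq b, smul_eq_mul]
  ring

theorem Variation.exists_coeff {z : ℂ} (hz : z ∈ B.U) (w : S.W) :
    ∃ h : Fin H.n → ℂ, w = ∑ k, h k • H.ω k z := by
  have h1 : w ∈ Submodule.span ℂ (Set.range fun i => H.ω i z) := by
    rw [H.span z hz]
    exact Submodule.mem_top
  obtain ⟨h, hh⟩ := (Submodule.mem_span_range_iff_exists_fun ℂ).1 h1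
  exact ⟨h, hh.symm⟩

theorem Variation.opm_sum {z : ℂ} (hz : z ∈ B.U) (j : Fin H.n) :
    H.wr b z ^ 2 • π (H.ω j z) = ∑ k, H.opm b π j k z • H.ω k z := by
  obtain ⟨h, hh⟩ := H.exists_coeff hz (π (H.ω j z))
  simp only [H.opm_eq b π hh]
  conv_lhs => rw [hh]
  rw [Finset.smul_sum]
  exact Finset.sum_congr rfl fun k _ => smul_smul _ _ _

theorem Variation.opm_deck (hπ : ∀ g ∈ H.deck, ∀ w, g.act (π w) = π (g.act w))
    {g : Deck S} (hg : g ∈ H.deck) {z : ℂ} (hz : z ∈ B.U)
    (j k : Fin H.n) : H.opm b π j k (g.move z) = H.opm b π j k z := by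
  obtain ⟨h, hh⟩ := H.exists_coeff hz (π (H.ω j z))
  have h1 : π (H.ω j (g.move z)) = ∑ k, h k • H.ω k (g.move z) := by
    rw [H.monodromy g hg z hz, ← hπ g hg, hh, map_sum]
    refine Finset.sum_congr rfl fun k _ => ?_
    rw [map_smul, H.monodromy g hg z hz]
  rw [H.opm_eq b π hh, H.opm_eq b π h1, H.wr_deck b hg hz]

/-- The system for the matrix of an operator. -/
theorem Variation.opm_deriv {P : Fin H.n → Fin H.n → ℂ → ℂ}
    (hP : ∀ i (f : S.W →ₗ[ℂ] ℂ), ∀ z ∈ B.U,
      HasDerivAt (fun y => f (H.ω i y)) (deriv B.x z * ∑ j, P i j z * f (H.ω j z)) z)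
    {z : ℂ} (hz : z ∈ B.U) (j k : Fin H.n) :
    HasDerivAt (H.opm b π j k) (deriv B.x z * (2 * (∑ i, P i i z) * H.opm b π j k z +
      ∑ l, P j l z * H.opm b π l k z - ∑ l, P l k z * H.opm b π j l z)) z := by
  have hd : ∀ k, HasDerivAt (H.opm b π j k) (deriv (H.opm b π j k) z) z := fun k =>
    ((H.differentiableOn (H.opm_mem b π j k)).differentiableAt
      (B.isOpen.mem_nhds hz)).hasDerivAt
  let c : Fin H.n → ℂ := fun k => deriv B.x z * (2 * (∑ i, P i i z) * H.opm b π j k z +
      ∑ l, P j l z * H.opm b π l k z - ∑ l, P l k z * H.opm b π j l z)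
  have key : (fun k => deriv (H.opm b π j k) z) = c := by
    refine coeff_unique (H.indep z hz) ?_
    refine (Module.forall_dual_apply_eq_zero_iff ℂ _).1 ?_ |> sub_eq_zero.1
    intro f
    have h1 : HasDerivAt (fun y => H.wr b y ^ 2 * f (π (H.ω j y)))
        (deriv B.x z * (2 * (∑ i, P i i z) * H.wr b z ^ 2) * f (π (H.ω j z)) +
          H.wr b z ^ 2 * (deriv B.x z * ∑ l, P j l z * f (π (H.ω l z)))) z :=
      (H.wr_deriv b hP hz).fun_mul (hP j (f ∘ₗ π) z hz)
    have h2 : HasDerivAt (fun y => ∑ k, H.opm b π j k y * f (H.ω k y))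
        (∑ k, (deriv (H.opm b π j k) z * f (H.ω k z) +
          H.opm b π j k z * (deriv B.x z * ∑ l, P k l z * f (H.ω l z)))) z :=
      HasDerivAt.fun_sum fun k _ => (hd k).fun_mul (hP k f z hz)
    have hsum : ∀ j, ∀ y ∈ B.U,
        H.wr b y ^ 2 * f (π (H.ω j y)) = ∑ k, H.opm b π j k y * f (H.ω k y) := by
      intro j y hy
      have h3 := congrArg f (H.opm_sum b π hy j)
      rw [map_smul, smul_eq_mul, map_sum] at h3
      rw [h3]
      exact Finset.sum_congr rfl fun k _ => by rw [map_smul, smul_eq_mul]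
    have h3 : (fun y => H.wr b y ^ 2 * f (π (H.ω j y))) =ᶠ[𝓝 z]
        fun y => ∑ k, H.opm b π j k y * f (H.ω k y) := by
      filter_upwards [B.isOpen.mem_nhds hz] with y hy
      exact hsum j y hy
    have h4 := (h2.congr_of_eventuallyEq h3).unique h1
    rw [map_sub, map_sum, map_sum, sub_eq_zero]
    simp only [map_smul, smul_eq_mul]
    rw [Finset.sum_add_distrib] at h4
    have h5 : deriv B.x z * (2 * (∑ i, P i i z) * H.wr b z ^ 2) * f (π (H.ω j z)) =
        ∑ k, deriv B.x z * (2 * (∑ i, P i i z) * H.opm b π j k z) * f (H.ω k z) := by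
      calc _ = deriv B.x z * (2 * (∑ i, P i i z)) * (H.wr b z ^ 2 * f (π (H.ω j z))) := by ring
        _ = _ := by
          rw [hsum j z hz, Finset.mul_sum]
          exact Finset.sum_congr rfl fun k _ => by ring
    have h6 : H.wr b z ^ 2 * (deriv B.x z * ∑ l, P j l z * f (π (H.ω l z))) =
        ∑ k, deriv B.x z * (∑ l, P j l z * H.opm b π l k z) * f (H.ω k z) := by
      calc _ = deriv B.x z * ∑ l, P j l z * (H.wr b z ^ 2 * f (π (H.ω l z))) := by
            rw [Finset.mul_sum, Finset.mul_sum, Finset.mul_sum]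
            exact Finset.sum_congr rfl fun l _ => by ring
        _ = deriv B.x z * ∑ l, ∑ k, P j l z * (H.opm b π l k z * f (H.ω k z)) := by
            congr 1
            refine Finset.sum_congr rfl fun l _ => ?_
            rw [hsum l z hz, Finset.mul_sum]
        _ = _ := by
            rw [Finset.sum_comm, Finset.mul_sum]
            refine Finset.sum_congr rfl fun k _ => ?_
            rw [mul_assoc, Finset.sum_mul]
            congr 1
            exact Finset.sum_congr rfl fun l _ => by ring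
    have h7 : ∑ k, H.opm b π j k z * (deriv B.x z * ∑ l, P k l z * f (H.ω l z)) =
        ∑ k, deriv B.x z * (∑ l, P l k z * H.opm b π j l z) * f (H.ω k z) := by
      calc _ = ∑ k, ∑ l, deriv B.x z * (P k l z * H.opm b π j k z) * f (H.ω l z) := by
            refine Finset.sum_congr rfl fun k _ => ?_
            rw [Finset.mul_sum, Finset.mul_sum]
            exact Finset.sum_congr rfl fun l _ => by ring
        _ = _ := by
            rw [Finset.sum_comm]
            refine Finset.sum_congr rfl fun k _ => ?_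
            rw [Finset.mul_sum, Finset.sum_mul]
    rw [h5, h6, h7] at h4
    have h8 : ∑ k, c k * f (H.ω k z) =
        ∑ k, deriv B.x z * (2 * (∑ i, P i i z) * H.opm b π j k z) * f (H.ω k z) +
        ∑ k, deriv B.x z * (∑ l, P j l z * H.opm b π l k z) * f (H.ω k z) -
        ∑ k, deriv B.x z * (∑ l, P l k z * H.opm b π j l z) * f (H.ω k z) := by
      rw [← Finset.sum_add_distrib, ← Finset.sum_sub_distrib]
      exact Finset.sum_congr rfl fun k _ => by simp only [c]; ring
    rw [h8, ← h4]
    ring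
  exact (hd k).congr_deriv (congrFun key k)

/-- An operator which commutes with the monodromy and preserves the de Rham vectors of the fibre
at `s` is algebraic. -/
theorem Variation.exists_op {s : ℂ} (hs : s ∈ B.U) (hxs : B.x s ∈ Qbar)
    (hD : S.D = Submodule.span Qbar (Set.range fun i => H.ω i s))
    (hπ : ∀ g ∈ H.deck, ∀ w, g.act (π w) = π (g.act w)) (hπD : ∀ w ∈ S.D, π w ∈ S.D) :
    ∃ (a : ℂ → ℂ) (N : Fin H.n → Fin H.n → ℂ → ℂ), a ∈ B.A ∧ (∀ z ∈ B.U, a z ≠ 0) ∧
      (∀ j k, N j k ∈ B.A) ∧ ∀ z ∈ B.U, ∀ j, a z • π (H.ω j z) = ∑ k, N j k z • H.ω k z := by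
  classical
  let b : Basis (Fin H.n) ℂ S.W := Basis.mk (H.indep s hs) (H.span s hs).ge
  have hb : ∀ i, b i = H.ω i s := fun i => Basis.mk_apply _ _ i
  have hwr : H.wr b s = 1 := by
    have h1 : (fun i => H.ω i s) = b := funext fun i => (hb i).symm
    rw [Variation.wr, h1, Basis.det_self]
  obtain ⟨P, hPA, hP⟩ := H.exists_conn
  obtain ⟨a, ha, haz⟩ := H.exists_wr b hs hxs hwr
  have hcoord : ∀ w ∈ S.D, ∀ k, b.coord k w ∈ Qbar := by
    intro w hw k
    rw [hD] at hw
    induction hw using Submodule.span_induction with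
    | mem x hx =>
      obtain ⟨i, rfl⟩ := hx
      change b.coord k (H.ω i s) ∈ Qbar
      rw [← hb i, Basis.coord_apply, Basis.repr_self, Finsupp.single_apply]
      split_ifs
      · exact one_mem Qbar
      · exact zero_mem Qbar
    | zero =>
      rw [map_zero]
      exact zero_mem Qbar
    | add x y _ _ hx hy =>
      rw [map_add]
      exact add_mem hx hy
    | smul q x _ hx =>
      have h1 : q • x = (q : ℂ) • x := rfl
      rw [h1, map_smul, smul_eq_mul]
      exact mul_mem q.2 hx
  have hreg : ∀ jk : Fin H.n × Fin H.n, B.RegC (H.opm b π jk.1 jk.2) := fun jk =>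
    H.regular _ (H.opm_mem b π jk.1 jk.2) fun g hg z hz => H.opm_deck b π hπ hg hz _ _
  let tr : ℂ → ℂ := (2 : ℕ) • ∑ i, P i i
  have htr : tr ∈ B.A := nsmul_mem (Subalgebra.sum_mem _ fun i _ => hPA i i) 2
  have htrz : ∀ z, tr z = 2 * ∑ i, P i i z := by
    intro z
    change ((2 : ℕ) • ∑ i, P i i) z = _
    rw [Pi.smul_apply, Finset.sum_apply, nsmul_eq_mul]
    norm_num
  obtain ⟨N, hN, hNz⟩ := B.descent (ι := Fin H.n × Fin H.n) hs hxs
    (y := fun jk => H.opm b π jk.1 jk.2) hreg
    (M := fun jk lm => (if lm.1 = jk.1 ∧ lm.2 = jk.2 then tr else 0) +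
      (if lm.2 = jk.2 then P jk.1 lm.1 else 0) - (if lm.1 = jk.1 then P lm.2 jk.2 else 0))
    (fun jk lm => by
      refine sub_mem (add_mem ?_ ?_) ?_ <;> split_ifs
      · exact htr
      · exact zero_mem _
      · exact hPA _ _
      · exact zero_mem _
      · exact hPA _ _
      · exact zero_mem _)
    (fun jk z hz => by
      refine (H.opm_deriv b π hP hz jk.1 jk.2).congr_deriv ?_
      congr 1
      obtain ⟨j, k⟩ := jk
      simp only [Pi.sub_apply, Pi.add_apply, sub_mul, add_mul, Finset.sum_sub_distrib,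
        Finset.sum_add_distrib]
      have e1 : ∑ lm : Fin H.n × Fin H.n, (if lm.1 = j ∧ lm.2 = k then tr else 0) z *
          H.opm b π lm.1 lm.2 z = 2 * (∑ i, P i i z) * H.opm b π j k z := by
        rw [Finset.sum_eq_single (j, k)]
        · rw [if_pos ⟨rfl, rfl⟩, htrz]
        · rintro ⟨l, m⟩ - hlm
          rw [if_neg (fun h => hlm (Prod.ext h.1 h.2))]
          simp
        · simp
      have e2 : ∑ lm : Fin H.n × Fin H.n, (if lm.2 = k then P j lm.1 else 0) z *
          H.opm b π lm.1 lm.2 z = ∑ l, P j l z * H.opm b π l k z := by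
        rw [Fintype.sum_prod_type]
        refine Finset.sum_congr rfl fun l _ => ?_
        rw [Finset.sum_eq_single k]
        · rw [if_pos rfl]
        · intro m _ hm
          rw [if_neg hm]
          simp
        · simp
      have e3 : ∑ lm : Fin H.n × Fin H.n, (if lm.1 = j then P lm.2 k else 0) z *
          H.opm b π lm.1 lm.2 z = ∑ l, P l k z * H.opm b π j l z := by
        rw [Fintype.sum_prod_type, Finset.sum_eq_single j]
        · exact Finset.sum_congr rfl fun m _ => by rw [if_pos rfl]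
        · intro l _ hl
          refine Finset.sum_eq_zero fun m _ => ?_
          rw [if_neg hl]
          simp
        · simp
      rw [e1, e2, e3])
    (fun jk => by
      obtain ⟨j, k⟩ := jk
      have h1 : π (H.ω j s) = ∑ k, b.coord k (π (H.ω j s)) • H.ω k s := by
        conv_lhs => rw [← b.sum_repr (π (H.ω j s))]
        exact Finset.sum_congr rfl fun k _ => by rw [hb]; rfl
      rw [H.opm_eq b π h1, hwr, one_pow, one_mul]
      refine hcoord _ (hπD _ ?_) k
      rw [hD]
      exact Submodule.subset_span ⟨j, rfl⟩)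
  refine ⟨a, fun j k => N (j, k), ha, fun z hz => ?_, fun j k => hN _, fun z hz j => ?_⟩
  · rw [← haz z hz]
    exact pow_ne_zero 2 (H.wr_ne b hz)
  · rw [← haz z hz, H.opm_sum b π hz]
    exact Finset.sum_congr rfl fun k _ => by rw [hNz (j, k) z hz]

end GD
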