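import Pool.Agent.H26.FC.Defs
import Pool.Agent.H26.FM.Lin
import Pool.Agent.H26.FM.Jac

/-!
# Regular functions on a curve
-/

noncomputable section

namespace GD

open Complex Filter Topology

/-- The subspace `L` is an algebraic subbundle of the family, with an algebraic frame near the
fibres `S` and `T`. -/
def CurveFam.AlgSub {S T : Str} (V : CurveFam S T) (L : Submodule ℂ S.W) : Prop :=
  ∃ (m : ℕ) (c : Fin m → Fin V.H.n → ℂ → ℂ) (r : ℂ → ℂ), (∀ i j, c i j ∈ V.B.A) ∧ r ∈ V.B.A ∧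
    r V.s ≠ 0 ∧ r V.t ≠ 0 ∧ ∀ z ∈ V.B.U, r z ≠ 0 → ∃ v : Fin m → S.W,
      (∀ i, v i = ∑ j, c i j z • V.H.ω j z) ∧ LinearIndependent ℂ v ∧
        Submodule.span ℂ (Set.range v) = L

theorem alg_of_mem {a : ℂ} (h : a ∈ Qbar) : IsAlgebraic ℚ a := by
  rwa [mem_algebraicClosure_iff] at h

theorem I_mem_Qbar : I ∈ Qbar := by
  rw [mem_algebraicClosure_iff]
  refine ⟨Polynomial.X ^ 2 + 1, ?_, ?_⟩
  · intro h
    have h1 := congrArg (Polynomial.eval 0) h
    simp at h1
  · simp

theorem dense_Qbar : Dense (Qbar : Set ℂ) := by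
  let E : Subfield ℂ := (Qbar.toSubfield).topologicalClosure
  have h1 : IsClosed (E : Set ℂ) := Subfield.isClosed_topologicalClosure _
  have h2 : (Qbar : Set ℂ) ⊆ E := Subfield.le_topologicalClosure Qbar.toSubfield
  rcases Complex.subfield_eq_of_closed h1 with h3 | h3
  · exfalso
    have h4 : I ∈ E := h2 I_mem_Qbar
    rw [h3] at h4
    obtain ⟨r, hr⟩ := h4
    have h5 := congrArg Complex.im hr
    simp at h5
  · intro z
    have h4 : z ∈ E := by
      rw [h3]
      trivial
    exact h4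

variable (B : Curve)

theorem Curve.analytic {a : ℂ → ℂ} (ha : a ∈ B.A) : AnalyticOnNhd ℂ a B.U :=
  (B.hol a ha).analyticOnNhd B.isOpen

theorem Curve.hasDerivAt {a : ℂ → ℂ} (ha : a ∈ B.A) {z : ℂ} (hz : z ∈ B.U) :
    HasDerivAt a (deriv a z) z :=
  ((B.hol a ha).differentiableAt (B.isOpen.mem_nhds hz)).hasDerivAt

theorem Curve.continuousAt {a : ℂ → ℂ} (ha : a ∈ B.A) {z : ℂ} (hz : z ∈ B.U) :
    ContinuousAt a z := (B.hasDerivAt ha hz).continuousAt

/-- The parameters at which the coordinate is algebraic are dense. -/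
theorem Curve.exists_alg {z : ℂ} (hz : z ∈ B.U) {s : Set ℂ} (hs : s ∈ 𝓝 z) :
    ∃ y ∈ s, y ∈ B.U ∧ B.x y ∈ Qbar := by
  have h1 : HasStrictDerivAt B.x (deriv B.x z) z :=
    (B.analytic B.x_mem z hz).hasStrictDerivAt
  have h2 := h1.map_nhds_eq (B.etale z hz)
  have h3 : B.x '' (s ∩ B.U) ∈ 𝓝 (B.x z) := by
    rw [← h2]
    exact image_mem_map (inter_mem hs (B.isOpen.mem_nhds hz))
  obtain ⟨w, hw, hwQ⟩ := mem_closure_iff_nhds.1 (dense_Qbar (B.x z)) _ h3
  obtain ⟨y, ⟨hy1, hy2⟩, rfl⟩ := hw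
  exact ⟨y, hy1, hy2, hwQ⟩

/-- The regular functions over the algebraic numbers and the complex numbers are linearly disjoint
over the algebraic numbers. -/
theorem Curve.disjoint {k : ℕ} {c : Fin k → ℂ} (hc : LinearIndependent Qbar c)
    {a : Fin k → ℂ → ℂ} (ha : ∀ j, a j ∈ B.A) (h : ∀ z ∈ B.U, ∑ j, c j * a j z = 0) (j : Fin k) :
    ∀ z ∈ B.U, a j z = 0 := by
  intro z hz
  by_contra h0
  have h1 : {y | a j y ≠ 0} ∈ 𝓝 z := (B.continuousAt (ha j) hz).eventually_ne h0
  obtain ⟨y, hy, hyU, hyQ⟩ := B.exists_alg hz h1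
  apply hy
  have h2 : ∀ j, a j y ∈ Qbar := fun j => B.val (a j) (ha j) y hyU hyQ
  have h3 : ∑ j, (⟨a j y, h2 j⟩ : Qbar) • c j = 0 := by
    rw [← h y hyU]
    refine Finset.sum_congr rfl fun j _ => ?_
    exact mul_comm _ _
  exact congrArg Subtype.val ((Fintype.linearIndependent_iff.1 hc) _ h3 j)

/-- The coefficients may be chosen linearly independent over the algebraic numbers. -/
theorem Curve.exists_indep {k : ℕ} (c : Fin k → ℂ) {a : Fin k → ℂ → ℂ} (ha : ∀ j, a j ∈ B.A) :
    ∃ (l : ℕ) (c' : Fin l → ℂ) (a' : Fin l → ℂ → ℂ), LinearIndependent Qbar c' ∧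
      (∀ i, a' i ∈ B.A) ∧ ∀ z, ∑ j, c j * a j z = ∑ i, c' i * a' i z := by
  let E : Submodule Qbar ℂ := Submodule.span Qbar (Set.range c)
  have hE : ∀ j, c j ∈ E := fun j => Submodule.subset_span (Set.mem_range_self j)
  have : Module.Finite Qbar E := Module.Finite.span_of_finite Qbar (Set.finite_range c)
  let b := Module.finBasis Qbar E
  refine ⟨_, fun i => (b i : ℂ), fun i => ∑ j, (b.repr ⟨c j, hE j⟩ i) • a j,
    b.linearIndependent.map' E.subtype (Submodule.ker_subtype _),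
    fun i => sum_mem fun j _ => B.A.smul_mem (ha j) _, fun z => ?_⟩
  have h1 : ∀ j, c j = ∑ i, (b.repr ⟨c j, hE j⟩ i : ℂ) * b i := by
    intro j
    have h2 := congrArg Subtype.val (b.sum_repr ⟨c j, hE j⟩)
    rw [AddSubmonoidClass.coe_finsetSum] at h2
    exact h2.symm
  have h3 : ∀ j, c j * a j z = ∑ i, (b i : ℂ) * ((b.repr ⟨c j, hE j⟩ i : ℂ) * a j z) := by
    intro j
    conv_lhs => rw [h1 j]
    rw [Finset.sum_mul]
    refine Finset.sum_congr rfl fun i _ => by ring
  rw [Finset.sum_congr rfl fun j _ => h3 j, Finset.sum_comm]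
  refine Finset.sum_congr rfl fun i _ => ?_
  change _ = (b i : ℂ) * (∑ j, (b.repr ⟨c j, hE j⟩ i) • a j) z
  rw [Finset.sum_apply, Finset.mul_sum]
  rfl

/-- A regular function over the complex numbers which satisfies a homogeneous linear equation of
first order over the algebraic numbers has an algebraic quotient of values. -/
theorem Curve.algebraic_of_ode {h : ℂ → ℂ} {k : ℕ} {c : Fin k → ℂ} {a : Fin k → ℂ → ℂ}
    (ha : ∀ j, a j ∈ B.A) (hc : ∀ z ∈ B.U, h z = ∑ j, c j * a j z) {p q : ℂ → ℂ} (hp : p ∈ B.A)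
    (hq : q ∈ B.A)
    (hode : ∀ z ∈ B.U, q z ≠ 0 → HasDerivAt h (deriv B.x z * (p z / q z) * h z) z)
    {s t : ℂ} (hs : s ∈ B.U ∧ B.x s ∈ Qbar) (ht : t ∈ B.U ∧ B.x t ∈ Qbar) (hqs : q s ≠ 0)
    (hhs : h s ≠ 0) (hht : h t ≠ 0) : IsAlgebraic ℚ (h s / h t) := by
  obtain ⟨l, c', a', hc', ha', hca⟩ := B.exists_indep c ha
  have hh : ∀ z ∈ B.U, h z = ∑ i, c' i * a' i z := fun z hz => (hc z hz).trans (hca z)
  choose b hbA hb using fun i => B.der (a' i) (ha' i)
  -- the equation for the coefficients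
  have key : ∀ i, ∀ z ∈ B.U, (q * (q * b i - p * a' i)) z = 0 := by
    refine fun i => B.disjoint hc' (fun i => B.A.mul_mem hq
      (B.A.sub_mem (B.A.mul_mem hq (hbA i)) (B.A.mul_mem hp (ha' i)))) ?_ i
    intro z hz
    by_cases hqz : q z = 0
    · refine Finset.sum_eq_zero fun i _ => ?_
      rw [Pi.mul_apply, hqz, zero_mul, mul_zero]
    have h1 : HasDerivAt h (∑ i, c' i * (deriv B.x z * b i z)) z := by
      have h2 : HasDerivAt (fun y => ∑ i, c' i * a' i y)
          (∑ i, c' i * (deriv B.x z * b i z)) z := by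
        refine HasDerivAt.fun_sum fun i _ => ?_
        have h3 := (B.hasDerivAt (ha' i) hz).const_mul (c' i)
        rwa [hb i z hz] at h3
      refine h2.congr_of_eventuallyEq ?_
      filter_upwards [B.isOpen.mem_nhds hz] with y hy
      exact hh y hy
    have h4 := h1.unique (hode z hz hqz)
    have hx := B.etale z hz
    have h5 : deriv B.x z * (∑ i, c' i * (q z * b i z - p z * a' i z)) = 0 := by
      have e1 : deriv B.x z * (∑ i, c' i * (q z * b i z - p z * a' i z)) =
          q z * (∑ i, c' i * (deriv B.x z * b i z)) -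
            deriv B.x z * p z * ∑ i, c' i * a' i z := by
        rw [Finset.mul_sum, Finset.mul_sum, Finset.mul_sum, ← Finset.sum_sub_distrib]
        exact Finset.sum_congr rfl fun i _ => by ring
      rw [e1, h4, hh z hz]
      field_simp
      ring
    have h6 := (mul_eq_zero.1 h5).resolve_left hx
    have e2 : ∑ i, c' i * (q * (q * b i - p * a' i)) z =
        q z * ∑ i, c' i * (q z * b i z - p z * a' i z) := by
      rw [Finset.mul_sum]
      refine Finset.sum_congr rfl fun i _ => ?_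
      simp only [Pi.mul_apply, Pi.sub_apply]
      ring
    rw [e2, h6, mul_zero]
  -- some coefficient does not vanish at `s`
  have hex : ∃ i, a' i s ≠ 0 := by
    by_contra hcon
    push Not at hcon
    apply hhs
    rw [hh s hs.1]
    exact Finset.sum_eq_zero fun i _ => by rw [hcon i, mul_zero]
  obtain ⟨i, hi⟩ := hex
  have hhan : AnalyticOnNhd ℂ (fun z => ∑ i, c' i * a' i z) B.U := by
    refine Finset.analyticOnNhd_fun_sum _ fun i _ => ?_
    exact analyticOnNhd_const.mul (B.analytic (ha' i))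
  -- near `s`
  have hcont : ContinuousAt h s := (hode s hs.1 hqs).continuousAt
  have hnhd : {z | z ∈ B.U ∧ q z ≠ 0 ∧ h z ≠ 0} ∈ 𝓝 s := by
    filter_upwards [B.isOpen.mem_nhds hs.1, (B.continuousAt hq hs.1).eventually_ne hqs,
      hcont.eventually_ne hhs] with z h1 h2 h3
    exact ⟨h1, h2, h3⟩
  obtain ⟨ε, hε, hball⟩ := Metric.mem_nhds_iff.1 hnhd
  have hder : ∀ z ∈ Metric.ball s ε, HasDerivAt (fun y => a' i y / h y) 0 z := by
    intro z hz
    obtain ⟨hzU, hqz, hhz⟩ := hball hz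
    have h1 := (B.hasDerivAt (ha' i) hzU).fun_div (hode z hzU hqz) hhz
    refine h1.congr_deriv ?_
    rw [hb i z hzU]
    have h2 := key i z hzU
    simp only [Pi.mul_apply, Pi.sub_apply] at h2
    have h3 := (mul_eq_zero.1 h2).resolve_left hqz
    rw [sub_eq_zero] at h3
    rw [div_eq_zero_iff]
    left
    have h4 : b i z = p z * a' i z / q z := by
      rw [eq_div_iff hqz, ← h3]
      ring
    rw [h4]
    field_simp
    ring
  have hconst : ∀ z ∈ Metric.ball s ε, a' i z / h z = a' i s / h s := by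
    intro z hz
    exact IsOpen.is_const_of_deriv_eq_zero (f := fun y => a' i y / h y)
      Metric.isOpen_ball (convex_ball s ε).isPreconnected
      (fun y hy => (hder y hy).differentiableAt.differentiableWithinAt)
      (fun y hy => (hder y hy).deriv) hz (Metric.mem_ball_self hε)
  have heq : Set.EqOn (a' i) (fun z => a' i s / h s * ∑ i, c' i * a' i z) B.U := by
    refine (B.analytic (ha' i)).eqOn_of_preconnected_of_eventuallyEq
      (analyticOnNhd_const.mul hhan) B.conn hs.1 ?_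
    filter_upwards [Metric.ball_mem_nhds s hε] with z hz
    obtain ⟨hzU, hqz, hhz⟩ := hball hz
    rw [← hh z hzU, ← hconst z hz, div_mul_cancel₀ _ hhz]
  have hit : a' i t = a' i s / h s * h t := by
    rw [hh t ht.1]
    exact heq ht.1
  have h1 : h s / h t = a' i s / a' i t := by
    rw [hit]
    field_simp
  rw [h1]
  have halg : ∀ z, z ∈ B.U ∧ B.x z ∈ Qbar → IsAlgebraic ℚ (a' i z) := fun z hz =>
    alg_of_mem (B.val _ (ha' i) z hz.1 hz.2)
  rw [div_eq_mul_inv]
  exact (halg s hs).mul (halg t ht).inv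

end GD
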