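import Pool.Agent.H26.FC.Defs
import Pool.Agent.H27.GD.DetBas

/-!
# Monodromy operators on the parts of a substructure
-/

noncomputable section

namespace GD

open Complex NumberField

section lattice

variable {S : Str} {γ : S.W →ₗ[ℂ] S.W} {Λ : Submodule ℤ S.W}

/-- rational vectors go to rational vectors -/
private theorem gam_B (hΛB : ∀ w ∈ Λ, w ∈ S.B) (hΛ : ∀ w ∈ S.B, ∃ k : ℕ, 0 < k ∧ k • w ∈ Λ)
    (hγ : ∀ w ∈ Λ, γ w ∈ Λ) : ∀ w ∈ S.B, γ w ∈ S.B := by
  intro w hw
  obtain ⟨k, hk, h⟩ := hΛ w hw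
  have h1 := hΛB _ (hγ _ h)
  rw [map_nsmul] at h1
  have h2 : (k : ℚ)⁻¹ • (k • γ w) ∈ S.B := Submodule.smul_mem _ _ h1
  have h3 : (k : ℚ)⁻¹ • (k • γ w) = γ w := by
    rw [← Nat.cast_smul_eq_nsmul ℚ, smul_smul, inv_mul_cancel₀ (by exact_mod_cast hk.ne'), one_smul]
  rwa [h3] at h2

/-- the eigenvalues are integral -/
private theorem ev_int (hfg : Λ.FG) (hΛ : ∀ w ∈ S.B, ∃ k : ℕ, 0 < k ∧ k • w ∈ Λ)
    (hγ : ∀ w ∈ Λ, γ w ∈ Λ) {μ : ℂ} {w : S.W} (hw : w ≠ 0) (h : γ w = μ • w) :
    IsIntegral ℤ μ := by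
  have : Module.Finite ℤ Λ := Module.Finite.iff_fg.2 hfg
  let g : Module.End ℤ Λ := γ.toAddMonoidHom.toIntLinearMap.restrict hγ
  obtain ⟨p, hp, hpg⟩ := LinearMap.exists_monic_and_aeval_eq_zero ℤ g
  have hpow : ∀ (i : ℕ) (x : Λ), ((γ : Module.End ℂ S.W) ^ i) (x : S.W) = ((g ^ i) x : S.W) := by
    intro i
    induction i with
    | zero => intro x; rfl
    | succ i ih =>
      intro x
      rw [pow_succ, pow_succ, Module.End.mul_apply, Module.End.mul_apply]
      exact ih (g x)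
  let G : Module.End ℂ S.W := ∑ i ∈ Finset.range (p.natDegree + 1),
    ((p.coeff i : ℤ) : ℂ) • (γ : Module.End ℂ S.W) ^ i
  have hG : ∀ x, G x = ∑ i ∈ Finset.range (p.natDegree + 1),
      ((p.coeff i : ℤ) : ℂ) • ((γ : Module.End ℂ S.W) ^ i) x := by
    intro x
    rw [LinearMap.sum_apply]
    rfl
  have hzero : ∀ x ∈ Λ, G x = 0 := by
    intro x hx
    have h1 := LinearMap.congr_fun hpg ⟨x, hx⟩
    rw [Polynomial.aeval_eq_sum_range, LinearMap.sum_apply] at h1
    have h2 := congrArg (fun z : Λ => (z : S.W)) h1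
    simp only [AddSubmonoidClass.coe_finsetSum] at h2
    rw [hG]
    refine Eq.trans (Finset.sum_congr rfl fun i _ => ?_) h2
    rw [hpow i ⟨x, hx⟩, Int.cast_smul_eq_zsmul]
    rfl
  have hB : ∀ x ∈ S.B, G x = 0 := by
    intro x hx
    obtain ⟨k, hk, hk1⟩ := hΛ x hx
    have h1 := hzero _ hk1
    rw [map_nsmul, ← Nat.cast_smul_eq_nsmul ℂ, smul_eq_zero] at h1
    exact h1.resolve_left (by exact_mod_cast hk.ne')
  have hall : G w = 0 := by
    have h1 : S.cx S.B ≤ LinearMap.ker G := Submodule.span_le.2 fun x hx => hB x hx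
    rw [Str.cx_B] at h1
    exact h1 (Submodule.mem_top (x := w))
  have hev : ∀ i : ℕ, ((γ : Module.End ℂ S.W) ^ i) w = μ ^ i • w := by
    intro i
    induction i with
    | zero => rw [pow_zero, pow_zero, one_smul]; rfl
    | succ i ih =>
      rw [pow_succ, Module.End.mul_apply, h, map_smul, ih, smul_smul, pow_succ, mul_comm]
  rw [hG] at hall
  simp only [hev, smul_smul] at hall
  rw [← Finset.sum_smul, smul_eq_zero] at hall
  refine ⟨p, hp, ?_⟩
  rw [Polynomial.eval₂_eq_sum_range]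
  exact hall.resolve_right hw

/-- the determinants on stable subspaces are integral -/
private theorem det_int (hfg : Λ.FG) (hΛ : ∀ w ∈ S.B, ∃ k : ℕ, 0 < k ∧ k • w ∈ Λ)
    (hγ : ∀ w ∈ Λ, γ w ∈ Λ) {m : ℕ} {v : Fin m → S.W} {R : Matrix (Fin m) (Fin m) ℂ}
    (hv : LinearIndependent ℂ v) (hR : ∀ j, γ (v j) = ∑ k, R j k • v k) :
    IsIntegral ℤ R.det := by
  rw [Matrix.det_eq_prod_roots_charpoly]
  refine IsIntegral.multiset_prod ?_
  intro μ hμ
  have h1 : R.charpoly.eval μ = 0 := (Polynomial.mem_roots'.1 hμ).2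
  rw [Matrix.eval_charpoly] at h1
  obtain ⟨y, hy, hy2⟩ := Matrix.exists_vecMul_eq_zero_iff.2 h1
  have h3 : ∀ k, ∑ j, y j * R j k = μ * y k := by
    intro k
    have h4 := congrFun hy2 k
    rw [Matrix.vecMul_sub, Pi.sub_apply, Pi.zero_apply, sub_eq_zero] at h4
    have h5 : Matrix.vecMul y (Matrix.scalar (Fin m) μ) k = μ * y k := by
      simp [Matrix.vecMul, dotProduct, Matrix.scalar_apply, Matrix.diagonal_apply, mul_comm]
    rw [h5] at h4
    rw [h4]
    rfl
  refine ev_int hfg hΛ hγ (w := ∑ j, y j • v j) ?_ ?_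
  · intro h
    apply hy
    funext j
    exact Fintype.linearIndependent_iff.1 hv y h j
  · rw [map_sum, Finset.smul_sum]
    simp only [map_smul, hR, Finset.smul_sum, smul_smul]
    rw [Finset.sum_comm]
    refine Finset.sum_congr rfl fun k _ => ?_
    rw [← Finset.sum_smul, h3]

/-- the determinants on stable subspaces have absolute value one -/
private theorem det_norm (P : Pol S) {U : Submodule ℂ S.W} (hU : U ≤ ⨆ p, U ⊓ S.hodge p)
    (hγB : ∀ w ∈ S.B, γ w ∈ S.B) (hE : ∀ v w, P.E (γ v) (γ w) = P.E v w) {m : ℕ}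
    {v : Fin m → S.W} {R : Matrix (Fin m) (Fin m) ℂ} (hv : LinearIndependent ℂ v)
    (hs : Submodule.span ℂ (Set.range v) = U) (hR : ∀ j, γ (v j) = ∑ k, R j k • v k) :
    ‖R.det‖ = 1 := by
  let H : Matrix (Fin m) (Fin m) ℂ := Matrix.of fun j k => P.E (v j) (S.conj (v k))
  have hconj : ∀ k, S.conj (γ (v k)) = ∑ l, (starRingEnd ℂ) (R k l) • S.conj (v l) := by
    intro k
    rw [hR, map_sum]
    exact Finset.sum_congr rfl fun l _ => DT.conj_smul S _ _
  have h1 : H = R * H * R.conjTranspose := by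
    ext j k
    have h2 : H j k = P.E (γ (v j)) (S.conj (γ (v k))) := by
      change P.E (v j) (S.conj (v k)) = _
      rw [← DT.map_conj hγB, hE]
    have h3 : P.E (γ (v j)) (S.conj (γ (v k))) = ∑ a, ∑ b,
        R j b * P.E (v b) (S.conj (v a)) * star (R k a) := by
      rw [hconj, hR, map_sum]
      refine Finset.sum_congr rfl fun a _ => ?_
      rw [map_smul, map_sum, LinearMap.sum_apply, smul_eq_mul, Finset.mul_sum]
      refine Finset.sum_congr rfl fun b _ => ?_
      rw [map_smul, LinearMap.smul_apply, smul_eq_mul]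
      change star (R k a) * _ = _
      ring
    have h4 : (R * H * R.conjTranspose) j k = ∑ a, ∑ b,
        R j b * P.E (v b) (S.conj (v a)) * star (R k a) := by
      rw [Matrix.mul_apply]
      refine Finset.sum_congr rfl fun a _ => ?_
      rw [Matrix.mul_apply, Finset.sum_mul]
      rfl
    rw [h2, h3, h4]
  have h2 : H.det ≠ 0 := by
    intro h0
    obtain ⟨y, hy, hy2⟩ := Matrix.exists_vecMul_eq_zero_iff.2 h0
    apply hy
    have hu : ∑ j, y j • v j ∈ U := by
      rw [← hs]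
      exact Submodule.sum_mem _ fun j _ => Submodule.smul_mem _ _ (Submodule.subset_span ⟨j, rfl⟩)
    have h3 : ∀ z ∈ U, P.E (∑ j, y j • v j) (S.conj z) = 0 := by
      intro z hz
      rw [← hs] at hz
      induction hz using Submodule.span_induction with
      | mem z hz =>
        obtain ⟨k, rfl⟩ := hz
        have h4 := congrFun hy2 k
        rw [map_sum, LinearMap.sum_apply]
        simp only [map_smul, LinearMap.smul_apply, smul_eq_mul]
        exact h4
      | zero => rw [map_zero, map_zero]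
      | add a b _ _ ha hb => rw [map_add, map_add, ha, hb, add_zero]
      | smul c a _ ha => rw [DT.conj_smul, map_smul, ha, smul_zero]
    obtain ⟨u, hu1, hu2, hxu⟩ := hodge_comp hU hu
    have h5 : ∑ j, y j • v j = 0 := by
      rw [hxu]
      refine Finset.sum_eq_zero fun p hp => ?_
      have hp' : p ≤ S.wt := by
        have := Finset.mem_range.1 hp
        omega
      have h6 := h3 (u p) (hu1 p)
      rw [hxu, pol_comp P hu2 hp (S.hodge_conj p hp' _ (hu2 p))] at h6
      exact pol_pos_ne P hp' (hu2 p) h6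
    funext j
    exact Fintype.linearIndependent_iff.1 hv y h5 j
  have h3 := congrArg Matrix.det h1
  rw [Matrix.det_mul, Matrix.det_mul, Matrix.det_conjTranspose] at h3
  have h4 : R.det * star R.det = 1 := by
    have h5 : H.det * (R.det * star R.det) = H.det * 1 := by
      rw [mul_one]
      conv_rhs => rw [h3]
      ring
    exact mul_left_cancel₀ h2 h5
  have h5 := congrArg norm h4
  rw [norm_mul, norm_star, norm_one] at h5
  nlinarith [norm_nonneg R.det]

/-- the determinant in a basis of a stable subspace -/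
private theorem det_restrict {U : Submodule ℂ S.W} (hU : ∀ w ∈ U, γ w ∈ U) {m : ℕ}
    {v : Fin m → S.W} {R : Matrix (Fin m) (Fin m) ℂ} (hv : LinearIndependent ℂ v)
    (hs : Submodule.span ℂ (Set.range v) = U) (hR : ∀ j, γ (v j) = ∑ k, R j k • v k) :
    LinearMap.det (γ.restrict hU) = R.det := by
  subst hs
  let b := Module.Basis.span hv
  have hb : ∀ i, (b i : S.W) = v i := fun i => congrArg Subtype.val (Module.Basis.span_apply hv i)
  rw [← LinearMap.det_toMatrix b]
  have h0 : LinearMap.toMatrix b b (γ.restrict hU) = R.transpose := by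
    ext i j
    rw [LinearMap.toMatrix_apply, Matrix.transpose_apply]
    have h1 : (γ.restrict hU) (b j) = ∑ k, R j k • b k := by
      apply Subtype.ext
      rw [LinearMap.coe_restrict_apply, hb, hR, AddSubmonoidClass.coe_finsetSum]
      exact Finset.sum_congr rfl fun k _ => by rw [Submodule.coe_smul, hb]
    rw [h1, map_sum]
    simp [Finsupp.single_apply]
  rw [h0, Matrix.det_transpose]

end lattice

/-- Kronecker, with a uniform exponent -/
private theorem kron (K : Type) [Field K] [NumberField K] :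
    ∃ N : ℕ, 0 < N ∧ ∀ u : K, IsIntegral ℤ u → (∀ φ : K →+* ℂ, ‖φ u‖ = 1) → u ^ N = 1 := by
  classical
  have hfin := Embeddings.finite_of_norm_le K ℂ 1
  refine ⟨∏ x ∈ hfin.toFinset, if orderOf x = 0 then 1 else orderOf x, ?_, ?_⟩
  · refine Finset.prod_pos fun x _ => ?_
    split_ifs with h
    · exact one_pos
    · exact Nat.pos_of_ne_zero h
  · intro u hu1 hu2
    have h1 : u ∈ hfin.toFinset := by
      rw [Set.Finite.mem_toFinset]
      exact ⟨hu1, fun φ => (hu2 φ).le⟩
    obtain ⟨n, hn, hn1⟩ := Embeddings.pow_eq_one_of_norm_eq_one K ℂ hu1 hu2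
    have h2 : orderOf u ≠ 0 := by
      intro h
      exact (orderOf_eq_zero_iff'.1 h) n hn hn1
    rw [← orderOf_dvd_iff_pow_eq_one]
    have h3 := Finset.dvd_prod_of_mem (fun x : K => if orderOf x = 0 then 1 else orderOf x) h1
    rw [if_neg h2] at h3
    exact h3

variable {S : Str} {M : Submodule ℚ S.W} {K : Type} [Field K] [NumberField K]

/-- Operators which preserve a lattice, the polarisation and the parts on which `K` acts through
one embedding have determinants of finite order on these parts, of bounded order. -/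
theorem exists_order (P : Pol S) (hM : IsSub S M) (ι : K →+* Module.End ℂ (S.cx M))
    (hι : ∀ a, IsEnd S M (ι a)) :
    ∃ N : ℕ, 0 < N ∧ ∀ (γ : S.W →ₗ[ℂ] S.W) (Λ : Submodule ℤ S.W), Λ.FG → (∀ w ∈ Λ, w ∈ S.B) →
      (∀ w ∈ S.B, ∃ k : ℕ, 0 < k ∧ k • w ∈ Λ) → (∀ w ∈ Λ, γ w ∈ Λ) →
      (∀ v w, P.E (γ v) (γ w) = P.E v w) → (∀ τ, ∀ w ∈ eig ι τ, γ w ∈ eig ι τ) →
      ∀ (τ : K →+* ℂ) (m : ℕ) (v : Fin m → S.W) (R : Matrix (Fin m) (Fin m) ℂ),
        LinearIndependent ℂ v → Submodule.span ℂ (Set.range v) = eig ι τ →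
        (∀ j, γ (v j) = ∑ k, R j k • v k) → R.det ^ N = 1 := by
  classical
  obtain ⟨N, hN, hkron⟩ := kron K
  refine ⟨N, hN, ?_⟩
  intro γ Λ hfg hΛB hΛ hγ hE heig τ m v R hv hs hR
  have hγB := gam_B hΛB hΛ hγ
  -- the complexification of `M` is stable
  have hcx : ∀ w ∈ S.cx M, γ w ∈ S.cx M := by
    intro w hw
    have h1 : (⨆ σ : K →+* ℂ, eig ι σ) ≤ (S.cx M).comap γ :=
      iSup_le fun σ w hw => eig_le ι σ (heig σ w hw)
    exact h1 (cx_le_iSup_eig ι hw)
  -- the projections commute with `γ`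
  have hprj : ∀ (σ : K →+* ℂ) (x : S.cx M),
      (prj ι σ ⟨γ x, hcx _ x.2⟩ : S.W) = γ (prj ι σ x : S.W) := by
    intro σ x
    have h1 : (⟨γ x, hcx _ x.2⟩ : S.cx M) =
        ∑ σ' : K →+* ℂ, ⟨γ (prj ι σ' x : S.W), hcx _ (prj ι σ' x).2⟩ := by
      apply Subtype.ext
      rw [AddSubmonoidClass.coe_finsetSum]
      change γ (x : S.W) = ∑ σ' : K →+* ℂ, γ (prj ι σ' x : S.W)
      rw [← map_sum]
      congr 1
      have h2 := congrArg (fun z : S.cx M => (z : S.W)) (sum_prj ι x)
      simp only [AddSubmonoidClass.coe_finsetSum] at h2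
      exact h2.symm
    have h2 : ∀ σ' : K →+* ℂ, prj ι σ ⟨γ (prj ι σ' x : S.W), hcx _ (prj ι σ' x).2⟩ =
        if σ' = σ then ⟨γ (prj ι σ' x : S.W), hcx _ (prj ι σ' x).2⟩ else 0 := fun σ' =>
      prj_of_eig ι σ σ' (heig σ' _ (prj_mem_eig ι σ' x))
    rw [h1, map_sum, Finset.sum_congr rfl fun σ' _ => h2 σ', Finset.sum_ite_eq' Finset.univ σ,
      if_pos (Finset.mem_univ σ)]
  -- a basis of `M` over `K`
  obtain ⟨n, b, -, hbM, hbs, hlin⟩ := DT.exists_Lbasis_rank ι hM.le hι
  have hγb : ∀ j, γ (b j : S.W) ∈ M := fun j =>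
    mem_of_cx hM.le (hcx _ (b j).2) (hγB _ (hM.le (hbM j)))
  choose a ha using fun j => hbs ⟨γ (b j : S.W), hcx _ (b j).2⟩ (hγb j)
  have hvlin : ∀ σ : K →+* ℂ, LinearIndependent ℂ (fun j => (prj ι σ (b j) : S.W)) := fun σ =>
    (DT.prj_lin ι hlin σ).map' (S.cx M).subtype (Submodule.ker_subtype _)
  have hvs : ∀ σ : K →+* ℂ, Submodule.span ℂ (Set.range fun j => (prj ι σ (b j) : S.W)) =
      eig ι σ := by
    intro σ
    apply le_antisymm
    · rw [Submodule.span_le]
      rintro _ ⟨j, rfl⟩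
      exact prj_mem_eig ι σ _
    · intro w hw
      have hw1 : w ∈ S.cx M := eig_le ι σ hw
      have h1 := DT.prj_span ι hbs σ ⟨w, hw1⟩
      have h2 : prj ι σ ⟨w, hw1⟩ = ⟨w, hw1⟩ := by
        have := prj_of_eig ι σ σ (x := ⟨w, hw1⟩) hw
        rw [if_pos rfl] at this
        exact this
      rw [h2] at h1
      have h3 := Submodule.mem_map_of_mem (f := (S.cx M).subtype) h1
      rw [Submodule.map_span, ← Set.range_comp] at h3
      exact h3
  let A : Matrix (Fin n) (Fin n) K := Matrix.of a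
  have hvR : ∀ (σ : K →+* ℂ) (j : Fin n), γ (prj ι σ (b j) : S.W) =
      ∑ k, (σ.mapMatrix A) j k • (prj ι σ (b k) : S.W) := by
    intro σ j
    rw [← hprj, ha j, map_sum, AddSubmonoidClass.coe_finsetSum]
    refine Finset.sum_congr rfl fun k _ => ?_
    rw [DT.prj_comm]
    rfl
  have hdet : ∀ σ : K →+* ℂ, (σ.mapMatrix A).det = σ A.det := fun σ => (σ.map_det A).symm
  -- Kronecker
  have hu1 : IsIntegral ℤ A.det := by
    have h1 := det_int hfg hΛ hγ (hvlin τ) (hvR τ)
    rw [hdet] at h1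
    have h2 : Function.Injective τ.toIntAlgHom := τ.injective
    exact (isIntegral_algHom_iff τ.toIntAlgHom h2).1 h1
  have hu2 : ∀ φ : K →+* ℂ, ‖φ A.det‖ = 1 := by
    intro φ
    rw [← hdet]
    exact det_norm P (eig_hodge ι hM hι φ) hγB hE (hvlin φ) (hvs φ) (hvR φ)
  have hu := hkron _ hu1 hu2
  have h1 := det_restrict (heig τ) hv hs hR
  have h2 := det_restrict (heig τ) (hvlin τ) (hvs τ) (hvR τ)
  rw [← h1, h2, hdet, ← map_pow, hu, map_one]

end GD
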