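import Pool.Agent.H26.FC.Move
import Pool.Agent.H26.FC.Alg
import Pool.Agent.H26.FM.Cen

/-!
# The class reached by families over curves
-/

noncomputable section

namespace GD

open Complex NumberField

variable {C₀ : Str → Prop} {F : Type} [Field F] [NumberField F] {e : F →+* ℂ}

/-- The relation for a flat action. -/
theorem det_of_flatC (hP₀ : ∀ T, C₀ T → Nonempty (Pol T)) (he : ∃ d, LiesIn e d)
    (h₀ : TriplesFor (Gen C₀) e) {K : Type} [Field K] [NumberField K] (i : K →+* F) {S T : Str}
    (hT : C₀ T) (V : CurveFam S T) {M : Submodule ℚ S.W} (hM : IsSub S M) (hM0 : M ≠ ⊥)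
    {ι : K →+* Module.End ℂ (S.cx M)} (hι : ∀ a, IsEnd S M (ι a)) (hV : V.FlatSub ι) :
    DetRelation ι (e.comp i) := by
  obtain ⟨N, κ, hN, hκ, hMN, hact⟩ := V.transport hM ι hι hV
  obtain ⟨P₀⟩ := hP₀ T hT
  have hex' : ∃ d, LiesIn (e.comp i) d := by
    obtain ⟨d, hd⟩ := he
    exact ⟨d, hd.1, fun x => hd.2 (i x)⟩
  have hne : N ≠ ⊥ := by
    intro h0
    apply hM0
    rw [Submodule.eq_bot_iff]
    intro x hx
    have h1 : V.par x ∈ N := (hMN _).1 hx
    rw [h0, Submodule.mem_bot] at h1
    exact (LinearEquiv.map_eq_zero_iff V.par).1 h1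
  obtain ⟨k, -, f, hfc, hfp⟩ := DT.exists_fam_tpow κ P₀ hN hne hκ
  have hrel : DetRelation κ (e.comp i) := by
    refine detRelation_of hN.le κ hex' f hfc hfp fun A => ?_
    exact det_suffices hP₀ (e.comp i) hex'
      (detFor_sub i (DT.det_of_relation gammaSpec hP₀ e he h₀))
      (powOf_gen (Gen.base T hT) (powOf_tpow T k)) A
  intro d _ hd ε hε l τ hτ z hz
  obtain ⟨z', hz', hsim⟩ := CurveFam.par_period hM hι hMN hact hV hz
  exact hsim.trans (hrel d hd ε (fun l' τ' hτ' => by
    rw [CurveFam.par_type hV hMN hact]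
    exact hε l' τ' hτ') l τ hτ z' hz')

/-- The relation for the simple substructures of a structure whose central actions are flat. -/
theorem detFor_of_flatC {C : Str → Prop} (he : ∃ d, LiesIn e d)
    (h₀ : TriplesFor (Gen fun T => Nonempty (Pol T) ∧ C T) e) {S : Str} (P : Pol S)
    (h : FlatC C S e) : DetFor (fun R => R = S) e := by
  intro K _ _ i him hG hc S' hS' M hM ι hι
  subst hS'
  obtain ⟨κ, hκ, hiso⟩ := exists_isot P hM ι hι
  obtain ⟨φ, hφ, T, hPT, hT, V, hV⟩ := h K i him hG hc κ hκ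
  have hφa : ∀ a, IsHom S' S' (φ a) := fun a => by
    rw [hφ.2.2 a]
    exact (hκ.2.1 a).comp hφ.2.1
  obtain ⟨M', ι', hM', hne', hι', heig', -, hcx', hact'⟩ := exists_sub φ hφa hφ.1
  refine rel_of_restriction hM ι hι hκ hiso hφ hM' hι' hcx' hact' ?_
  refine det_of_flatC (C₀ := fun T => Nonempty (Pol T) ∧ C T) (fun T hT => hT.1) he h₀ i
    ⟨hPT, hT⟩ V hM' hne' hι' fun τ => ?_
  rw [heig' τ]
  exact ⟨V.algSub_of_comm φ hφa hV.1 τ, hV.2 τ⟩

/-- The Gross-Deligne relation holds for all admissible triples in the structures reached from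
`C₀` by families over curves if and only if it holds for the determinants of the central actions
on the members of `C₀`. -/
theorem reachedC_iff (hB : ∀ S, C₀ S → Nonempty (Pol S)) (he : ∃ d, LiesIn e d) :
    (∀ R, ReachedC C₀ e R → ∀ A : Adm R F, Relation A e) ↔ CentralFor C₀ e := by
  constructor
  · intro h
    refine central_of_triples hB he fun R hR A => h R ?_ A
    intro C h1 _ h3 _
    exact h3 R (Gen.mono_of (fun S hS => Gen.base S (h1 S hS)) hR)
  · intro h R hR A
    have hD := detFor_of_central hB h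
    let C : Str → Prop := fun S => Nonempty (Pol S) ∧ DetFor (fun R => R = S) e
    have hP : ∀ S, C S → Nonempty (Pol S) := fun S hS => hS.1
    have hC : DetFor C e := fun K _ _ i him hG hc S hS M hM ι hι =>
      hS.2 K i him hG hc S rfl M hM ι hι
    have hT : TriplesFor (Gen C) e := fun R hR A => det_suffices hP e he hC hR A
    refine hT R (hR (Gen C) ?_ ?_ ?_ ?_) A
    · intro S h1
      refine Gen.base S ⟨hB S h1, ?_⟩
      intro K _ _ i him hG hc S' hS' M hM ι hι
      exact hD K i him hG hc S' (by rw [hS']; exact h1) M hM ι hι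
    · intro S h1 h2
      refine Gen.base S ⟨h1, ?_⟩
      exact triples_gamma (fun R => R = S) (fun R hR => hR ▸ h1) (fun R hR => hR ▸ h2) e he
    · exact fun S hS => Gen.mono_of (fun _ h => h) hS
    · rintro S ⟨P⟩ h2
      refine Gen.base S ⟨⟨P⟩, ?_⟩
      refine detFor_of_flatC he ?_ P h2
      exact fun R hR A => hT R (Gen.mono_of (fun T hT => hT.2) hR) A

end GD
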