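import Pool.Agent.H26.FC.Per
import Pool.Agent.H27.GD.Transp

/-!
# Parallel transport of actions in families over curves
-/

noncomputable section

namespace GD

open Complex NumberField Module

variable {S T : Str}

section equiv

variable {ρ : S.W ≃ₗ[ℂ] T.W} {M : Submodule ℚ S.W} {K : Type} [Field K]
  {ι : K →+* Module.End ℂ (S.cx M)} {N : Submodule ℚ T.W} {κ : K →+* Module.End ℂ (T.cx N)}

theorem cx_equiv (hMN : ∀ x, x ∈ M ↔ ρ x ∈ N) :
    (S.cx M).map (ρ : S.W →ₗ[ℂ] T.W) = T.cx N := by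
  have h1 : ρ '' (M : Set S.W) = (N : Set T.W) := by
    ext y
    constructor
    · rintro ⟨x, hx, rfl⟩
      exact (hMN x).1 hx
    · intro hy
      refine ⟨ρ.symm y, (hMN _).2 ?_, ρ.apply_symm_apply y⟩
      rw [ρ.apply_symm_apply]
      exact hy
  rw [Submodule.map_span]
  exact congrArg (Submodule.span ℂ) h1

theorem equiv_cx (hMN : ∀ x, x ∈ M ↔ ρ x ∈ N) (x : S.W) : x ∈ S.cx M ↔ ρ x ∈ T.cx N := by
  rw [← cx_equiv hMN]
  constructor
  · intro hx
    exact ⟨x, hx, rfl⟩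
  · rintro ⟨x', hx', h3⟩
    have h4 : x' = x := ρ.injective h3
    rwa [← h4]

theorem equiv_eig (hMN : ∀ x, x ∈ M ↔ ρ x ∈ N)
    (hact : ∀ a (x : S.cx M) (y : T.cx N), ρ x = y → ρ (ι a x) = κ a y) (τ : K →+* ℂ) :
    eig κ τ = (eig ι τ).map (ρ : S.W →ₗ[ℂ] T.W) := by
  ext y
  rw [DT.mem_eig]
  constructor
  · rintro ⟨h, hy⟩
    refine ⟨ρ.symm y, DT.mem_eig.2 ?_, ρ.apply_symm_apply y⟩
    have h1 : ρ.symm y ∈ S.cx M := (equiv_cx hMN _).2 (by rwa [ρ.apply_symm_apply])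
    refine ⟨h1, fun a => ?_⟩
    apply Subtype.ext
    apply ρ.injective
    rw [hact a ⟨_, h1⟩ ⟨y, h⟩ (ρ.apply_symm_apply y), hy a]
    change τ a • y = ρ (τ a • ρ.symm y)
    rw [map_smul, ρ.apply_symm_apply]
  · rintro ⟨x, hx, rfl⟩
    obtain ⟨h, hx⟩ := DT.mem_eig.1 hx
    have h1 : ρ x ∈ T.cx N := (equiv_cx hMN x).1 h
    refine ⟨h1, fun a => ?_⟩
    apply Subtype.ext
    have h2 := hact a ⟨x, h⟩ ⟨ρ x, h1⟩ rfl
    rw [hx a] at h2
    change (κ a ⟨ρ x, h1⟩ : T.W) = τ a • ρ x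
    rw [← h2]
    exact map_smul ρ (τ a) x

end equiv

/-- An algebraic subbundle is spanned by de Rham vectors in the second fibre. -/
theorem CurveFam.span_dR (V : CurveFam S T) {L : Submodule ℂ S.W} (hL : V.AlgSub L) :
    L.map (V.par : S.W →ₗ[ℂ] T.W) ≤
      Submodule.span ℂ {x | x ∈ T.D ∧ x ∈ L.map (V.par : S.W →ₗ[ℂ] T.W)} := by
  obtain ⟨m, c, r, hc, -, -, hrt, h⟩ := hL
  obtain ⟨v, hv, -, hvL⟩ := h V.t V.ht.1 hrt
  have h2 : L.map (V.par : S.W →ₗ[ℂ] T.W) =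
      Submodule.span ℂ ((V.par : S.W →ₗ[ℂ] T.W) '' Set.range v) := by
    rw [← Submodule.map_span, hvL]
  conv_lhs => rw [h2]
  refine Submodule.span_mono ?_
  rintro _ ⟨_, ⟨i, rfl⟩, rfl⟩
  refine ⟨?_, ⟨v i, ?_, rfl⟩⟩
  · change V.par (v i) ∈ T.D
    rw [hv i, map_sum]
    refine Submodule.sum_mem _ fun j _ => ?_
    rw [map_smul]
    have h3 : V.par (V.H.ω j V.t) ∈ T.D := by
      rw [V.dR_t]
      exact Submodule.subset_span ⟨j, rfl⟩
    exact T.D.smul_mem (⟨c i j V.t, V.B.val _ (hc i j) _ V.ht.1 V.ht.2⟩ : Qbar) h3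
  · rw [← hvL]
    exact Submodule.subset_span ⟨i, rfl⟩

/-- Parallel transport of a flat action. -/
theorem CurveFam.transport (V : CurveFam S T) {M : Submodule ℚ S.W} (hM : IsSub S M)
    {K : Type} [Field K] [NumberField K] (ι : K →+* Module.End ℂ (S.cx M))
    (hι : ∀ a, IsEnd S M (ι a)) (hV : V.FlatSub ι) :
    ∃ (N : Submodule ℚ T.W) (κ : K →+* Module.End ℂ (T.cx N)), IsSub T N ∧
      (∀ a, IsEnd T N (κ a)) ∧ (∀ x, x ∈ M ↔ V.par x ∈ N) ∧
      ∀ a (x : S.cx M) (y : T.cx N), V.par x = y → V.par (ι a x) = κ a y := by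
  let f : S.W →ₗ[ℚ] T.W := (V.par : S.W →ₗ[ℂ] T.W).restrictScalars ℚ
  have hMN : ∀ x, x ∈ M ↔ V.par x ∈ M.map f := by
    intro x
    constructor
    · intro hx
      exact ⟨x, hx, rfl⟩
    · rintro ⟨x', hx', h⟩
      have h1 : x' = x := V.par.injective h
      rwa [← h1]
  let E : S.cx M ≃ₗ[ℂ] T.cx (M.map f) :=
    (V.par.submoduleMap (S.cx M)).trans (LinearEquiv.ofEq _ _ (cx_equiv hMN))
  have hE : ∀ x : S.cx M, (E x : T.W) = V.par x := fun x => rfl
  let κ : K →+* Module.End ℂ (T.cx (M.map f)) := (E.conjRingEquiv : _ →+* _).comp ι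
  have hκ : ∀ a y, κ a y = E (ι a (E.symm y)) := fun a y => rfl
  have hact : ∀ a (x : S.cx M) (y : T.cx (M.map f)), V.par x = y → V.par (ι a x) = κ a y := by
    intro a x y hxy
    have h1 : E x = y := Subtype.ext hxy
    rw [hκ, ← h1, E.symm_apply_apply, hE]
  have heig := equiv_eig hMN hact
  have hgr : ∀ τ, eig κ τ ≤ ⨆ p, eig κ τ ⊓ T.hodge p := by
    intro τ
    apply graded_of_finrank (n := max S.wt T.wt) (le_max_right _ _)
    rw [heig τ]
    have h1 : finrank ℂ ((eig ι τ).map (V.par : S.W →ₗ[ℂ] T.W) : Submodule ℂ T.W) =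
        finrank ℂ (eig ι τ) := LinearEquiv.finrank_map_eq V.par _
    rw [h1, ← finrank_graded (eig_hodge ι hM hι τ) (le_max_left S.wt T.wt)]
    exact Finset.sum_congr rfl fun p _ => (hV τ).2 p
  have hdR : ∀ τ, eig κ τ ≤ Submodule.span ℂ {x | x ∈ T.D ∧ x ∈ eig κ τ} := by
    intro τ
    rw [heig τ]
    exact V.span_dR (hV τ).1
  refine ⟨M.map f, κ, ⟨?_, ?_, ?_⟩, fun a => ⟨?_, ?_, ?_⟩, hMN, hact⟩
  · rintro _ ⟨x, hx, rfl⟩
    exact (V.par_B x).1 (hM.le hx)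
  · refine (cx_le_iSup_eig κ).trans (iSup_le fun τ => (hgr τ).trans (iSup_mono fun p => ?_))
    exact inf_le_inf_right _ (eig_le κ τ)
  · refine (cx_le_iSup_eig κ).trans (iSup_le fun τ => (hdR τ).trans (Submodule.span_mono ?_))
    exact fun x hx => ⟨hx.1, eig_le κ τ hx.2⟩
  · rintro ⟨y, hy⟩ ⟨x, hx, rfl⟩
    have h1 := hact a ⟨x, Submodule.subset_span hx⟩ ⟨f x, hy⟩ rfl
    rw [← h1]
    exact (hMN _).1 ((hι a).betti _ hx)
  · exact fun x hx => act_dR κ hdR a hx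
  · exact fun p x hx => act_hodge κ hgr a hx

section flat

variable {V : CurveFam S T} {M : Submodule ℚ S.W} {K : Type} [Field K]
  {ι : K →+* Module.End ℂ (S.cx M)} {N : Submodule ℚ T.W} {κ : K →+* Module.End ℂ (T.cx N)}

theorem CurveFam.par_type (hV : V.FlatSub ι) (hMN : ∀ x, x ∈ M ↔ V.par x ∈ N)
    (hact : ∀ a (x : S.cx M) (y : T.cx N), V.par x = y → V.par (ι a x) = κ a y) :
    detType κ = detType ι := by
  have key : ∀ (R : Str) (L : Submodule ℂ R.W) (n : ℕ), R.wt ≤ n →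
      ∑ p ∈ Finset.range (n + 1), p * finrank ℂ (L ⊓ R.hodge p : Submodule ℂ R.W) =
        ∑ p ∈ Finset.range (R.wt + 1), p * finrank ℂ (L ⊓ R.hodge p : Submodule ℂ R.W) := by
    intro R L n hn
    symm
    apply Finset.sum_subset
    · intro p hp
      rw [Finset.mem_range] at hp ⊢
      omega
    · intro p _ hp
      rw [Finset.mem_range] at hp
      rw [R.hodge_large p (by omega), inf_bot_eq, finrank_bot, mul_zero]
  funext τ
  rw [detType, detType, ← key S (eig ι τ) (max S.wt T.wt) (le_max_left _ _),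
    ← key T (eig κ τ) (max S.wt T.wt) (le_max_right _ _)]
  refine Finset.sum_congr rfl fun p _ => ?_
  rw [equiv_eig hMN hact τ]
  exact congrArg (fun n => p * n) ((hV τ).2 p)

/-- A determinant of periods of the fibre `S` is a determinant of periods of the fibre `T`, up to
an algebraic factor. -/
theorem CurveFam.par_period [NumberField K] (hM : IsSub S M) (hι : ∀ a, IsEnd S M (ι a))
    (hMN : ∀ x, x ∈ M ↔ V.par x ∈ N)
    (hact : ∀ a (x : S.cx M) (y : T.cx N), V.par x = y → V.par (ι a x) = κ a y)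
    (hV : V.FlatSub ι) {τ : K →+* ℂ} {z : ℂ} (hz : IsDetPeriod ι τ z) :
    ∃ z', IsDetPeriod κ τ z' ∧ Sim z z' := by
  have hz0 := hz
  obtain ⟨n, v, ω, Q, hv, hvL, -, -, hvM, -, -, -⟩ := hz
  obtain ⟨a, b, X, Y, ⟨ha, haL, haD, haX⟩, ⟨hb, hbL, hbD, hbY⟩, hsim⟩ :=
    V.period hM ι hι hV τ hv hvL
  have h1 : IsDetPeriod ι τ X.det := ⟨n, v, a, X, hv, hvL, ha, haL, hvM, haD, haX, rfl⟩
  have hspan : ∀ w : Fin n → S.W, Submodule.span ℂ (Set.range w) = eig ι τ →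
      Submodule.span ℂ (Set.range fun i => V.par (w i)) = eig κ τ := by
    intro w hw
    have h2 : (Set.range fun i => V.par (w i)) = (V.par : S.W →ₗ[ℂ] T.W) '' Set.range w := by
      rw [← Set.range_comp]
      rfl
    rw [equiv_eig hMN hact τ, ← hw, Submodule.map_span, h2]
  have hlin : ∀ w : Fin n → S.W, LinearIndependent ℂ w →
      LinearIndependent ℂ fun i => V.par (w i) := fun w hw =>
    hw.map' (V.par : S.W →ₗ[ℂ] T.W) (LinearMap.ker_eq_bot.2 V.par.injective)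
  refine ⟨Y.det, ⟨n, fun j => V.par (v j), fun i => V.par (b i), Y, hlin v hv, hspan v hvL,
    hlin b hb, hspan b hbL, fun j => ?_, hbD, fun i => ?_, rfl⟩,
    (detPeriod_sim hM.le ι hz0 h1).trans hsim⟩
  · have h2 : Submodule.span Qbar (M : Set S.W) ≤
        (Submodule.span Qbar (N : Set T.W)).comap
          ((V.par : S.W →ₗ[ℂ] T.W).restrictScalars Qbar) := by
      rw [Submodule.span_le]
      intro x hx
      exact Submodule.subset_span ((hMN x).1 hx)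
    exact h2 (hvM j)
  · change V.par (b i) = ∑ j, Y i j • V.par (v j)
    rw [hbY i, map_sum]
    exact Finset.sum_congr rfl fun j _ => map_smul _ _ _

end flat

end GD
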