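import Pool.Agent.H26.FC.Kron
import Pool.Agent.H26.FC.Frame
import Pool.Agent.H26.DT.Final

/-!
# Periods of an algebraic subbundle at the two fibres
-/

noncomputable section

namespace GD

open Complex

variable {S T : Str} (V : CurveFam S T)

/-- The eigenspaces of the action `ι` on `M` are algebraic subbundles, and have the same Hodge
numbers in the fibre `T`. -/
def CurveFam.FlatSub {M : Submodule ℚ S.W} {K : Type} [Field K]
    (ι : K →+* Module.End ℂ (S.cx M)) : Prop :=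
  ∀ τ, V.AlgSub (eig ι τ) ∧ ∀ p,
    Module.finrank ℂ ((eig ι τ).map V.par.toLinearMap ⊓ T.hodge p : Submodule ℂ T.W) =
      Module.finrank ℂ (eig ι τ ⊓ S.hodge p : Submodule ℂ S.W)

/-- The monodromy preserves the algebraic subbundles which are flat. -/
theorem CurveFam.deck_mem {L : Submodule ℂ S.W} (hL : V.AlgSub L)
    {g : Deck S} (hg : g ∈ V.H.deck) : ∀ w ∈ L, g.act w ∈ L := by
  obtain ⟨m, c, r, hc, hr, hrs, -, hfr⟩ := hL
  obtain ⟨hgs, hgA⟩ := V.H.deck_U g hg V.s V.hs.1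
  obtain ⟨v, hv, -, hvL⟩ := hfr V.s V.hs.1 hrs
  obtain ⟨v', hv', -, hvL'⟩ := hfr (g.move V.s) hgs (by rwa [hgA r hr])
  have h1 : ∀ i, g.act (v i) = v' i := by
    intro i
    rw [hv, hv', map_sum]
    refine Finset.sum_congr rfl fun j _ => ?_
    rw [map_smul, hgA _ (hc i j), V.H.monodromy g hg V.s V.hs.1 j]
  have h2 : L ≤ L.comap g.act := by
    conv_lhs => rw [← hvL]
    rw [Submodule.span_le]
    rintro _ ⟨i, rfl⟩
    change g.act (v i) ∈ L
    rw [h1, ← hvL']
    exact Submodule.subset_span (Set.mem_range_self i)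
  exact h2

/-- Determinants of periods of the eigenspaces of a flat action at the fibres `S` and `T`. -/
theorem CurveFam.period {M : Submodule ℚ S.W} (hM : IsSub S M) {K : Type} [Field K]
    [NumberField K] (ι : K →+* Module.End ℂ (S.cx M)) (hι : ∀ a, IsEnd S M (ι a))
    (hV : V.FlatSub ι) (τ : K →+* ℂ) {m : ℕ} {v : Fin m → S.W} (hv : LinearIndependent ℂ v)
    (hvL : Submodule.span ℂ (Set.range v) = eig ι τ) :
    ∃ (a b : Fin m → S.W) (X Y : Matrix (Fin m) (Fin m) ℂ),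
      (LinearIndependent ℂ a ∧ Submodule.span ℂ (Set.range a) = eig ι τ ∧ (∀ i, a i ∈ S.D) ∧
        ∀ i, a i = ∑ j, X i j • v j) ∧
      (LinearIndependent ℂ b ∧ Submodule.span ℂ (Set.range b) = eig ι τ ∧
        (∀ i, V.par (b i) ∈ T.D) ∧ ∀ i, b i = ∑ j, Y i j • v j) ∧
      Sim X.det Y.det := by
  obtain ⟨P, hP⟩ := V.H.polarised
  obtain ⟨Λ, hΛ1, hΛ2, hΛ3, hΛ4⟩ := V.H.lattice
  obtain ⟨N, hN, hord⟩ := exists_order P hM ι hι
  obtain ⟨m', c₀, r₀, hc₀, hr₀, hrs, hrt, hfr⟩ := (hV τ).1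
  have hm : m' = m := by
    obtain ⟨w, -, hwl, hws⟩ := hfr V.s V.hs.1 hrs
    have h3 := finrank_span_eq_card hwl
    rw [hws, ← hvL, finrank_span_eq_card hv, Fintype.card_fin, Fintype.card_fin] at h3
    exact h3.symm
  subst hm
  let r : V.B.A := ⟨r₀, hr₀⟩
  let c : Matrix (Fin m') (Fin V.H.n) V.B.A := fun i j => r * ⟨c₀ i j, hc₀ i j⟩
  have hcomb : ∀ z i, V.H.comb c i z = r₀ z • ∑ j, c₀ i j z • V.H.ω j z := by
    intro z i
    rw [Variation.comb, Finset.smul_sum]
    refine Finset.sum_congr rfl fun j _ => ?_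
    rw [smul_smul]
    rfl
  have hL : ∀ z ∈ V.B.U, ∀ i, V.H.comb c i z ∈ eig ι τ := by
    intro z hz i
    rw [hcomb]
    by_cases h0 : r₀ z = 0
    · rw [h0, zero_smul]
      exact zero_mem _
    · obtain ⟨w, hw, -, hws⟩ := hfr z hz h0
      rw [← hw, ← hws]
      exact Submodule.smul_mem _ _ (Submodule.subset_span (Set.mem_range_self i))
  have hbas : ∀ z ∈ V.B.U, r₀ z ≠ 0 → (LinearIndependent ℂ fun i => V.H.comb c i z) ∧
      Submodule.span ℂ (Set.range fun i => V.H.comb c i z) = eig ι τ := by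
    intro z hz h0
    obtain ⟨w, hw, hwl, hws⟩ := hfr z hz h0
    have h1 : (fun i => V.H.comb c i z) = fun i => r₀ z • w i := by
      funext i
      rw [hcomb, hw]
    rw [h1]
    have h2 : LinearIndependent ℂ fun i => r₀ z • w i :=
      hwl.units_smul fun _ => Units.mk0 _ h0
    refine ⟨h2, ?_⟩
    apply Submodule.eq_of_le_of_finrank_eq
    · rw [Submodule.span_le]
      rintro _ ⟨i, rfl⟩
      change r₀ z • w i ∈ eig ι τ
      rw [← hws]
      exact Submodule.smul_mem _ _ (Submodule.subset_span (Set.mem_range_self i))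
    · rw [finrank_span_eq_card h2, ← hws, finrank_span_eq_card hwl]
  obtain ⟨g, hg⟩ := exists_coord hv
  rw [hvL] at hg
  obtain ⟨e, he⟩ := V.H.exists_der c
  have heL := V.H.conn_mem he hL
  -- a minor which does not vanish at `s`
  have hminor : ∃ J : Fin m' → Fin V.H.n, V.B.ev V.s (c.submatrix id J).det ≠ 0 := by
    have h1 := (hbas V.s V.hs.1 hrs).1
    have h2 : LinearIndependent ℂ fun i => (c.map (V.B.ev V.s) : Matrix _ _ ℂ) i := by
      rw [Fintype.linearIndependent_iff] at h1 ⊢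
      intro u hu i
      refine h1 u ?_ i
      have h3 : ∀ j, ∑ i, u i * V.B.ev V.s (c i j) = 0 := by
        intro j
        have h4 := congrFun hu j
        rw [Finset.sum_apply] at h4
        exact h4
      simp only [Variation.comb, Finset.smul_sum, smul_smul]
      rw [Finset.sum_comm]
      refine Finset.sum_eq_zero fun j _ => ?_
      rw [← Finset.sum_smul, h3, zero_smul]
    obtain ⟨J, hJ⟩ := exists_minor _ h2
    refine ⟨J, fun h0 => hJ ?_⟩
    have h3 : (c.map (V.B.ev V.s) : Matrix _ _ ℂ).submatrix id J =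
        (V.B.ev V.s).mapMatrix (c.submatrix id J) := rfl
    rw [h3, ← AlgHom.map_det, h0]
  obtain ⟨J, hJ⟩ := hminor
  let δ : ℂ → ℂ := fun y => (Matrix.of fun i j => g (V.H.comb c i y) j).det
  have hδ0 : ∀ z ∈ V.B.U, r₀ z ≠ 0 → δ z ≠ 0 := fun z hz h0 =>
    det_ne_of_basis (hbas z hz h0).1 fun i => hg _ (hL z hz i)
  -- the monodromy of the determinant
  have hinv : ∀ g' ∈ V.H.deck, ∀ z ∈ V.B.U, δ (g'.move z) ^ N = δ z ^ N := by
    intro g' hg' z hz
    obtain ⟨hgz, hgA⟩ := V.H.deck_U g' hg' z hz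
    have h1 : ∀ j, ∃ R : Fin m' → ℂ, ∑ k, R k • v k = g'.act (v j) := by
      intro j
      have h2 : g'.act (v j) ∈ Submodule.span ℂ (Set.range v) := by
        rw [hvL]
        refine V.deck_mem (hV τ).1 hg' _ ?_
        rw [← hvL]
        exact Submodule.subset_span (Set.mem_range_self j)
      exact (Submodule.mem_span_range_iff_exists_fun ℂ).1 h2
    choose R hR using h1
    have h2 := hord g'.act Λ hΛ1 hΛ2 hΛ3 (hΛ4 g' hg') (hP g' hg')
      (fun σ => V.deck_mem (hV σ).1 hg') τ m' v (Matrix.of R) hv hvL fun j => (hR j).symm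
    have h3 : (Matrix.of fun i j => g (V.H.comb c i (g'.move z)) j) =
        (Matrix.of fun i j => g (V.H.comb c i z) j) * Matrix.of R := by
      ext1 i
      have h4 : V.H.comb c i (g'.move z) = g'.act (V.H.comb c i z) := by
        rw [Variation.comb, Variation.comb, map_sum]
        refine Finset.sum_congr rfl fun j _ => ?_
        rw [map_smul, V.H.monodromy g' hg' z hz j, V.B.ev_apply, V.B.ev_apply,
          hgA _ (c i j).2]
      have h5 : ∑ k, g (V.H.comb c i (g'.move z)) k • v k =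
          ∑ k, ((Matrix.of fun i j => g (V.H.comb c i z) j) * Matrix.of R) i k • v k := by
        rw [← hg _ (hL _ hgz i), h4]
        conv_lhs => rw [hg _ (hL z hz i)]
        rw [map_sum]
        simp only [map_smul, ← hR, Finset.smul_sum, smul_smul, Matrix.mul_apply,
          Finset.sum_smul]
        exact Finset.sum_comm
      exact congrFun (coeff_unique hv h5)
    change (Matrix.of fun i j => g (V.H.comb c i (g'.move z)) j).det ^ N =
      (Matrix.of fun i j => g (V.H.comb c i z) j).det ^ N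
    rw [h3, Matrix.det_mul, mul_pow, h2, mul_one]
  have hmem : (fun z => δ z ^ N) ∈ V.B.periodRing V.H.ω := pow_mem (V.H.det_mem c g) N
  obtain ⟨k, cc, aa, haa, hsum⟩ := V.H.regular _ hmem hinv
  let D : V.B.A := (c.submatrix id J).det
  let tr : V.B.A := (e.submatrix id J * (c.submatrix id J).adjugate).trace
  have hode : ∀ z ∈ V.B.U, ((r * D : V.B.A) : ℂ → ℂ) z ≠ 0 → HasDerivAt (fun z => δ z ^ N)
      (deriv V.B.x z * ((((N : V.B.A) * (r * tr) : V.B.A) : ℂ → ℂ) z /
        ((r * D : V.B.A) : ℂ → ℂ) z) * (fun z => δ z ^ N) z) z := by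
    intro z hz hq
    have hq' : V.B.ev z (r * D) ≠ 0 := hq
    rw [map_mul] at hq'
    have hr0 : V.B.ev z r ≠ 0 := left_ne_zero_of_mul hq'
    have hD0 : V.B.ev z D ≠ 0 := right_ne_zero_of_mul hq'
    have h1 := (V.H.hasDerivAt_det hz (fun f i => he f z hz i) (heL z hz) (hbas z hz hr0).2 J
      hD0 g).fun_pow N
    refine h1.congr_deriv ?_
    change (N : ℂ) * δ z ^ (N - 1) * (deriv V.B.x z * (V.B.ev z tr / V.B.ev z D) * δ z) =
      deriv V.B.x z * (V.B.ev z ((N : V.B.A) * (r * tr)) / V.B.ev z (r * D)) * δ z ^ N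
    rw [map_mul, map_mul, map_mul, map_natCast]
    obtain ⟨N', rfl⟩ := Nat.exists_eq_succ_of_ne_zero hN.ne'
    rw [Nat.succ_sub_one, pow_succ]
    field_simp
  have halg := V.B.algebraic_of_ode haa hsum (p := (((N : V.B.A) * (r * tr) : V.B.A) : ℂ → ℂ))
    (q := ((r * D : V.B.A) : ℂ → ℂ)) (Subtype.prop _) (Subtype.prop _) hode V.hs V.ht
    (by
      change V.B.ev V.s (r * D) ≠ 0
      rw [map_mul]
      exact mul_ne_zero hrs hJ)
    (pow_ne_zero _ (hδ0 _ V.hs.1 hrs)) (pow_ne_zero _ (hδ0 _ V.ht.1 hrt))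
  have hval : ∀ z, z ∈ V.B.U ∧ V.B.x z ∈ Qbar → ∀ i j, ∃ q : Qbar, V.B.ev z (c i j) = q :=
    fun z hz i j => ⟨⟨_, V.B.val _ (c i j).2 z hz.1 hz.2⟩, rfl⟩
  refine ⟨fun i => V.H.comb c i V.s, fun i => V.H.comb c i V.t,
    Matrix.of fun i j => g (V.H.comb c i V.s) j, Matrix.of fun i j => g (V.H.comb c i V.t) j,
    ⟨(hbas _ V.hs.1 hrs).1, (hbas _ V.hs.1 hrs).2, fun i => ?_, fun i => hg _ (hL _ V.hs.1 i)⟩,
    ⟨(hbas _ V.ht.1 hrt).1, (hbas _ V.ht.1 hrt).2, fun i => ?_, fun i => hg _ (hL _ V.ht.1 i)⟩,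
    hδ0 _ V.hs.1 hrs, hδ0 _ V.ht.1 hrt, ?_⟩
  · rw [V.dR_s]
    refine Submodule.sum_mem _ fun j _ => ?_
    obtain ⟨q, hq⟩ := hval _ V.hs i j
    rw [hq]
    exact Submodule.smul_mem _ q (Submodule.subset_span (Set.mem_range_self j))
  · change V.par (∑ j, V.B.ev V.t (c i j) • V.H.ω j V.t) ∈ T.D
    rw [V.dR_t, map_sum]
    refine Submodule.sum_mem _ fun j _ => ?_
    obtain ⟨q, hq⟩ := hval _ V.ht i j
    rw [map_smul, hq]
    exact Submodule.smul_mem _ q (Submodule.subset_span (Set.mem_range_self j))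
  · refine IsAlgebraic.of_pow hN ?_
    rw [div_pow]
    exact halg

end GD
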